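import Pool.Agent.Helper47.PQ.Box
import Pool.Agent.Helper47.PQ.HartogsT

set_option autoImplicit false
set_option linter.unusedSectionVars false

/-!
# PV-H3: every divisor on a product is dominated by a box divisor, up to linear equivalence

`exists_box_ge_one`: for a prime divisor `P` of `X = F × Y` which is trivial on `M` and `K` there
are `x ∈ E`, `x ≠ 0`, and divisors `GF`, `GY`, `G = GF ⊞ GY` such that
`0 ≤ Q x + G Q` for all `Q ∈ X.primeDivisors` and `1 ≤ P x + G P`.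

PROOF. Let `p` be a uniformizer of `P`; `p = s / s'` with `s, s' ∈ M K`, `P s' = 0`
(`exists_frac_dom`), so `x := s ∈ M K` has `P x = 1`. Write `x = ∑ aᵢ bᵢ` (`mem_prodRing`),
`aᵢ ∈ M`, `bᵢ ∈ K`. Let `GF` be a divisor with `0 ≤ GF T` and `0 ≤ T (aᵢ) + GF T` for
all `T` and all `i` (for instance `∑ᵢ |div aᵢ|`, where `|div a| = (prin a).mapRange abs`,
`ProjVar.prin` in Values.lean), `GY` in the same way with the `bᵢ`, and `G` the box
(`exists_box`). By `trichotomy`: if `Q` is trivial on `M` and `K` then `Q x ≥ 0` (a sum of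
elements `aᵢ bᵢ` of value `≥ 0`) and `G Q = 0` (`IsBox.dom`). If `Q` is the Gauss
extension of `Q₀ ∈ Y.primeDivisors` then `Q.Ge (-(GY Q₀)) (aᵢ bᵢ)` for all `i`
(`apply_left`, `apply_right`), so `Q.Ge (-(GY Q₀)) x`, and `G Q = GY Q₀` (`gauss_right`).
The third case is symmetric. `G P = 0`, so `1 ≤ P x + G P`.

`exists_box_ge`: for a divisor `A` on `X` there are `AF`, `AY`, `B = AF ⊞ AY` and
`g ≠ 0` with `A P ≤ B P + P g` for all `P`.

PROOF. Let `P₁, ..., P_s` be the prime divisors in the support of `A` which are trivial on `M`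
and `K`, and `xⱼ`, `Gⱼ = GFⱼ ⊞ GYⱼ` as above for `Pⱼ`; let `nⱼ ∈ ℕ`, `nⱼ ≥ A (Pⱼ)`. Put
`g = ∏ xⱼ ^ nⱼ`, `AF = ∑ nⱼ • GFⱼ + A₁`, `AY = ∑ nⱼ • GYⱼ + A₂`, where `A₁ T = |A P_T|`, `P_T` the Gauss
extension of `T` (a prime divisor of `X`: `exists_gauss`, `gauss_mem`, `T ↦ P_T` is injective since
`T a = P_T a`, so `A₁` has finite support), and `A₂` in the same way; `B` = box. Check
`A P ≤ B P + P g` with `trichotomy`: `B P + P g = (|A P| or 0) + ∑ nⱼ (P xⱼ + Gⱼ P)`.
-/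

namespace Pool.Agent.Helper30.PV

open Pool.Agent.Helper92.Weak Pool.Agent.Helper47.PQ

variable {k M K E : Type*} [Field k] [Field M] [Field K] [Field E]
  [Algebra k M] [Algebra k K] [Algebra k E] [Algebra M E] [Algebra K E]
  [IsScalarTower k M E] [IsScalarTower k K E] [IsAlgClosed k]

variable {F : ProjVar k M} {Y : ProjVar k K} {X : ProjVar k E}

/-- A divisor which dominates the poles of finitely many functions. -/
private theorem bge_dom {L : Type*} [Field L] [Algebra k L] (Z : ProjVar k L) {n : ℕ}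
    (a : Fin n → L) :
    ∃ G : Z.Div, (∀ T, 0 ≤ G T) ∧ ∀ (T : Z.primeDivisors) (i : Fin n),
      0 ≤ (T.1 (a i) : ℚ) + G T := by
  refine ⟨∑ i, (Z.prin (a i)).mapRange abs abs_zero, fun T => ?_, fun T i => ?_⟩
  · rw [Finsupp.finsetSum_apply]
    refine Finset.sum_nonneg fun i _ => ?_
    rw [Finsupp.mapRange_apply]
    exact abs_nonneg _
  · rw [Finsupp.finsetSum_apply]
    have h1 : |(T.1 (a i) : ℚ)| ≤
        ∑ j, ((Z.prin (a j)).mapRange abs abs_zero : Z.Div) T := by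
      refine le_trans (le_of_eq ?_) (Finset.single_le_sum
        (f := fun j => ((Z.prin (a j)).mapRange abs abs_zero : Z.Div) T)
        (fun j _ => ?_) (Finset.mem_univ i))
      · rw [Finsupp.mapRange_apply, ProjVar.prin_apply]
      · rw [Finsupp.mapRange_apply]
        exact abs_nonneg _
    have h2 := neg_abs_le (T.1 (a i) : ℚ)
    linarith

/-- The value of a product `a b` at a prime divisor, as a lower bound. -/
private theorem bge_mul {P : DVal k E} {a : M} {b : K} {c : ℚ}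
    (h : c ≤ (P (algebraMap M E a) : ℚ) + P (algebraMap K E b)) :
    P.Ge c (algebraMap M E a * algebraMap K E b) := by
  by_cases ha : algebraMap M E a = 0
  · rw [ha, zero_mul]
    exact DVal.Ge.zero
  by_cases hb : algebraMap K E b = 0
  · rw [hb, mul_zero]
    exact DVal.Ge.zero
  rw [DVal.ge_iff (mul_ne_zero ha hb), P.map_mul ha hb]
  push_cast
  exact h

theorem exists_box_ge_one (h : IsProduct F Y X) (P : X.primeDivisors)
    (h1 : ∀ a : M, P.1 (algebraMap M E a) = 0) (h2 : ∀ b : K, P.1 (algebraMap K E b) = 0) :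
    ∃ (x : E) (GF : F.Div) (GY : Y.Div) (G : X.Div), x ≠ 0 ∧
      IsBox GF GY G ∧ (∀ Q : X.primeDivisors, 0 ≤ (Q.1 x : ℚ) + G Q) ∧
      1 ≤ (P.1 x : ℚ) + G P := by
  obtain ⟨p, hp0, hp⟩ := P.1.exists_uniformizer
  obtain ⟨s, hs, s', -, hs'0, hPs', hps⟩ := h.exists_frac_dom P.2 (x := p) (by omega)
  have hs0 : s ≠ 0 := by
    rintro rfl
    exact hp0 (by rw [hps, zero_div])
  have hPs : P.1 s = 1 := by
    rw [hps, P.1.map_div hs0 hs'0, hPs', sub_zero] at hp
    exact hp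
  obtain ⟨n, a, b, -, -, hsum⟩ := mem_prodRing.1 hs
  obtain ⟨GF, hGF0, hGF⟩ := bge_dom F a
  obtain ⟨GY, hGY0, hGY⟩ := bge_dom Y b
  obtain ⟨G, hG⟩ := h.exists_box GF GY
  have key : ∀ (Q : X.primeDivisors) (c : ℚ),
      (∀ i, c ≤ (Q.1 (algebraMap M E (a i)) : ℚ) + Q.1 (algebraMap K E (b i))) →
      c ≤ (Q.1 s : ℚ) := by
    intro Q c hc
    have h3 : Q.1.Ge c s := by
      rw [hsum]
      exact DVal.Ge.sum fun i _ => bge_mul (hc i)
    rwa [DVal.ge_iff hs0] at h3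
  refine ⟨s, GF, GY, G, hs0, hG, fun Q => ?_, ?_⟩
  · rcases h.trichotomy Q.2 with ⟨h3, h4⟩ | ⟨Q₀, hQ₀, hQ⟩ | ⟨T, hT, hQ⟩
    · rw [hG.dom Q h3 h4, add_zero]
      refine key Q 0 fun i => ?_
      rw [h3, h4]
      simp
    · rw [hG.gauss_right Q ⟨Q₀, hQ₀⟩ hQ]
      have h5 := key Q (-(GY ⟨Q₀, hQ₀⟩)) fun i => by
        have h6 := hGY ⟨Q₀, hQ₀⟩ i
        rw [hQ.apply_left, hQ.apply_right]
        push_cast
        change 0 ≤ (Q₀ (b i) : ℚ) + _ at h6
        linarith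
      linarith
    · rw [hG.gauss_left Q ⟨T, hT⟩ hQ]
      have h5 := key Q (-(GF ⟨T, hT⟩)) fun i => by
        have h6 := hGF ⟨T, hT⟩ i
        rw [hQ.apply_left, hQ.apply_right]
        push_cast
        change 0 ≤ (T (a i) : ℚ) + _ at h6
        linarith
      linarith
  · rw [hPs, hG.dom P h1 h2]
    norm_num

/-- Box divisors of nonnegative divisors are nonnegative. -/
private theorem bge_nonneg (h : IsProduct F Y X) {DF : F.Div} {DY : Y.Div} {D : X.Div}
    (hD : IsBox DF DY D) (h1 : ∀ T, 0 ≤ DF T) (h2 : ∀ Q, 0 ≤ DY Q) (P : X.primeDivisors) :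
    0 ≤ D P := by
  rcases h.trichotomy P.2 with ⟨h3, h4⟩ | ⟨Q, hQ, hG⟩ | ⟨T, hT, hG⟩
  · rw [hD.dom P h3 h4]
  · rw [hD.gauss_right P ⟨Q, hQ⟩ hG]
    exact h2 _
  · rw [hD.gauss_left P ⟨T, hT⟩ hG]
    exact h1 _

/-- The case of a multiple of a prime divisor. -/
private theorem bge_single (h : IsProduct F Y X) (P : X.primeDivisors) (c : ℚ) :
    ∃ (AF : F.Div) (AY : Y.Div) (B : X.Div) (g : E), g ≠ 0 ∧
      IsBox AF AY B ∧ ∀ Q : X.primeDivisors,
        (Finsupp.single P c : X.Div) Q ≤ B Q + (Q.1 g : ℚ) := by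
  classical
  rcases h.trichotomy P.2 with ⟨h3, h4⟩ | ⟨Q₀, hQ₀, hG⟩ | ⟨T, hT, hG⟩
  · obtain ⟨x, GF, GY, G, hx0, hG, hnn, h1⟩ := exists_box_ge_one h P h3 h4
    obtain ⟨n, hn⟩ := exists_nat_ge |c|
    refine ⟨(n : ℚ) • GF, (n : ℚ) • GY, (n : ℚ) • G, x ^ n, pow_ne_zero n hx0, hG.smul _,
      fun Q => ?_⟩
    have hn0 : (0 : ℚ) ≤ n := n.cast_nonneg
    have h5 : ((n : ℚ) • G : X.Div) Q + ((Q.1 (x ^ n) : ℤ) : ℚ) =
        n * ((Q.1 x : ℚ) + G Q) := by
      rw [Finsupp.smul_apply, smul_eq_mul, Q.1.map_pow]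
      push_cast
      ring
    rw [h5]
    by_cases hQ : P = Q
    · subst hQ
      rw [Finsupp.single_eq_same]
      have h6 : (n : ℚ) * 1 ≤ n * ((P.1 x : ℚ) + G P) := mul_le_mul_of_nonneg_left h1 hn0
      have h7 := le_abs_self c
      linarith
    · rw [Finsupp.single_eq_of_ne' hQ]
      exact mul_nonneg hn0 (hnn Q)
  · obtain ⟨B, hB⟩ := h.exists_box 0 (Finsupp.single ⟨Q₀, hQ₀⟩ |c|)
    refine ⟨0, Finsupp.single ⟨Q₀, hQ₀⟩ |c|, B, 1, one_ne_zero, hB, fun Q => ?_⟩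
    rw [DVal.map_one, Int.cast_zero, add_zero]
    by_cases hQ : P = Q
    · subst hQ
      rw [Finsupp.single_eq_same, hB.gauss_right P ⟨Q₀, hQ₀⟩ hG, Finsupp.single_eq_same]
      exact le_abs_self c
    · rw [Finsupp.single_eq_of_ne' hQ]
      refine bge_nonneg h hB (fun T => le_rfl) (fun R => ?_) Q
      by_cases hR : ⟨Q₀, hQ₀⟩ = R
      · rw [← hR, Finsupp.single_eq_same]
        exact abs_nonneg c
      · rw [Finsupp.single_eq_of_ne' hR]
  · obtain ⟨B, hB⟩ := h.exists_box (Finsupp.single ⟨T, hT⟩ |c|) 0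
    refine ⟨Finsupp.single ⟨T, hT⟩ |c|, 0, B, 1, one_ne_zero, hB, fun Q => ?_⟩
    rw [DVal.map_one, Int.cast_zero, add_zero]
    by_cases hQ : P = Q
    · subst hQ
      rw [Finsupp.single_eq_same, hB.gauss_left P ⟨T, hT⟩ hG, Finsupp.single_eq_same]
      exact le_abs_self c
    · rw [Finsupp.single_eq_of_ne' hQ]
      refine bge_nonneg h hB (fun R => ?_) (fun T => le_rfl) Q
      by_cases hR : ⟨T, hT⟩ = R
      · rw [← hR, Finsupp.single_eq_same]
        exact abs_nonneg c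
      · rw [Finsupp.single_eq_of_ne' hR]

theorem exists_box_ge (h : IsProduct F Y X) (A : X.Div) :
    ∃ (AF : F.Div) (AY : Y.Div) (B : X.Div) (g : E), g ≠ 0 ∧
      IsBox AF AY B ∧ ∀ P : X.primeDivisors, A P ≤ B P + (P.1 g : ℚ) := by
  induction A using Finsupp.induction_linear with
  | zero =>
    obtain ⟨B, hB⟩ := h.exists_box 0 0
    refine ⟨0, 0, B, 1, one_ne_zero, hB, fun P => ?_⟩
    rw [DVal.map_one, Int.cast_zero, add_zero]
    exact bge_nonneg h hB (fun _ => le_rfl) (fun _ => le_rfl) P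
  | add A A' ih ih' =>
    obtain ⟨AF, AY, B, g, hg, hB, h1⟩ := ih
    obtain ⟨AF', AY', B', g', hg', hB', h1'⟩ := ih'
    refine ⟨AF + AF', AY + AY', B + B', g * g', mul_ne_zero hg hg', hB.add hB', fun P => ?_⟩
    rw [Finsupp.add_apply, Finsupp.add_apply, DVal.map_mul _ hg hg']
    have h2 := h1 P
    have h3 := h1' P
    push_cast
    linarith
  | single P c => exact bge_single h P c

end Pool.Agent.Helper30.PV
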