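import Pool.Agent.Helper92.Weak.GrowthE

set_option autoImplicit false
set_option linter.unusedSectionVars false

/-!
# PV-S1: growth of products of sequences

`logGrowth_le_nat`: PROOF. `logGrowth_le` (GrowthE.lean) with `h₂ = 1`, `s = n`, `φ = id`, and
`logGrowth 1 = 0`; or directly: `log (C m ^ n) / log m → n`.

`logGrowth_mul_le`: PROOF. For `m ≥ 2`: `ENNReal.log (a b) = ENNReal.log a + ENNReal.log b`
(`ENNReal.log_mul_add`), and division by the positive real number `log m` is additive in `EReal`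
(for `⊥` too; `EReal.add_div_of_nonneg_right`, or argue by cases `⊥`/real/`⊤`). So the left side is
the limsup of a sum of two sequences; `EReal.limsup_add_le` applies since both limsups are `≠ ⊤` by
`logGrowth_le_nat`.

`le_logGrowth_mul`: PROOF. Put `g m = m ^ d * h₂ m`. `d + logGrowth h₂ ≤ logGrowth g` by
`le_logGrowth` (`a = 1`, `s = d`), and `g m ≤ C * (h₁ m * h₂ m)` for `m ≥ 1` gives
`logGrowth g ≤ logGrowth (h₁ h₂)` by `logGrowth_le` (`s = 0`, `φ = id`).
-/

namespace Pool.Agent.Helper30.PV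

open Pool.Agent.Helper92.Weak Filter

theorem logGrowth_one : logGrowth (fun _ => 1) = 0 := by
  unfold logGrowth
  simp

theorem logGrowth_le_nat {h : ℕ → ℕ∞} {n C : ℕ}
    (hU : ∀ m : ℕ, 1 ≤ m → h m ≤ C * (m : ℕ∞) ^ n) : logGrowth h ≤ n := by
  have h1 := logGrowth_le (h1 := h) (h2 := fun _ => 1) (s := n) (C := C) (a := 1) (c := 0)
    (φ := id) tendsto_id (fun m => by simp) (by
      filter_upwards [eventually_ge_atTop 1] with m hm
      rw [mul_one]
      exact hU m hm)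
  rwa [logGrowth_one, add_zero] at h1

theorem logGrowth_mul_le {h₁ h₂ : ℕ → ℕ∞} {n₁ C₁ n₂ C₂ : ℕ}
    (hU₁ : ∀ m : ℕ, 1 ≤ m → h₁ m ≤ C₁ * (m : ℕ∞) ^ n₁)
    (hU₂ : ∀ m : ℕ, 1 ≤ m → h₂ m ≤ C₂ * (m : ℕ∞) ^ n₂) :
    logGrowth (fun m => h₁ m * h₂ m) ≤ logGrowth h₁ + logGrowth h₂ := by
  have t₁ : logGrowth h₁ ≠ ⊤ := fun h0 => by
    have h1 := logGrowth_le_nat hU₁
    rw [h0, top_le_iff] at h1
    exact EReal.natCast_ne_top n₁ h1
  have t₂ : logGrowth h₂ ≠ ⊤ := fun h0 => by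
    have h1 := logGrowth_le_nat hU₂
    rw [h0, top_le_iff] at h1
    exact EReal.natCast_ne_top n₂ h1
  have e1 : logGrowth (fun m => h₁ m * h₂ m) =
      limsup ((fun m : ℕ => ENNReal.log (h₁ m : ENNReal) / ENNReal.log (m : ENNReal)) +
        fun m : ℕ => ENNReal.log (h₂ m : ENNReal) / ENNReal.log (m : ENNReal)) atTop := by
    unfold logGrowth
    apply limsup_congr
    filter_upwards [eventually_ge_atTop 2] with m hm
    rw [Pi.add_apply, ← EReal.add_div_of_nonneg_right (log_nat_pos hm).le, ← ENNReal.log_mul_add,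
      ENat.toENNReal_mul]
  rw [e1]
  exact EReal.limsup_add_le (Or.inr t₂) (Or.inl t₁)

theorem le_logGrowth_mul {h₁ h₂ : ℕ → ℕ∞} {d C : ℕ}
    (hL : ∀ m : ℕ, 1 ≤ m → (m : ℕ∞) ^ d ≤ C * h₁ m) :
    (d : EReal) + logGrowth h₂ ≤ logGrowth (fun m => h₁ m * h₂ m) := by
  have h1 := le_logGrowth (h1 := fun m => (m : ℕ∞) ^ d * h₂ m) (h2 := h₂) (s := d) (a := 1)
    le_rfl (fun n _ => by simp)
  have h2 := logGrowth_le (h1 := fun m => (m : ℕ∞) ^ d * h₂ m) (h2 := fun m => h₁ m * h₂ m)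
    (s := 0) (C := C) (a := 1) (c := 0) (φ := id) tendsto_id (fun m => by simp) (by
      filter_upwards [eventually_ge_atTop 1] with m hm
      rw [pow_zero, mul_one, id, ← mul_assoc]
      exact mul_le_mul_left (hL m hm) _)
  rw [Nat.cast_zero, zero_add] at h2
  exact h1.trans h2

end Pool.Agent.Helper30.PV
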