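import Pool.Agent.Helper30.PV.Kun2
import Pool.Agent.Helper30.PV.BoxGe
import Pool.Agent.Helper30.PV.SeqGrow
import Pool.Agent.Helper47.PQ.D10

set_option autoImplicit false
set_option linter.unusedSectionVars false

/-!
# PV-S2: Kodaira dimension and upper bound for the numerical dimension of box divisors

`kod_box`: `κ(X, D) = κ(F, DF) + κ(Y, DY)`, `D = DF ⊞ DY`.
PROOF. `regular DF` and `regular DY`. If all `H⁰(F, m DF) = ⊥` (`m ≥ 1`) and `κ(F, DF) = ⊥`, then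
`h⁰(X, m D) = h⁰(F, m DF) h⁰(Y, m DY) = 0` for `m ≥ 1` (`h0_box`, `IsBox.smul`; `h0_le`: `h⁰ ≤ dim H⁰`)
and both sides are `⊥` (`ProjVar.kod`, `kodDim`, `if_pos`; `EReal.bot_add`). The same for `Y`.
Otherwise let `(d₁, C₁, m₁)` and `(d₂, C₂, m₂)` be the data: apply `kodDim_eq_of_bounds` with
`d = d₁ + d₂`, `m₀ = m₁ m₂`, `C = C₁ C₂`: for `m ≥ 1`
`m ^ (d₁ + d₂) ≤ (m m₂) ^ d₁ (m m₁) ^ d₂ ≤ C₁ h⁰(m m₂ m₁ DF) C₂ h⁰(m m₁ m₂ DY) = C h⁰(X, m m₁ m₂ D)`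
and `h⁰(X, m D) = h⁰(F, m DF) h⁰(Y, m DY) ≤ dim H⁰ · dim H⁰ ≤ C₁ m ^ d₁ C₂ m ^ d₂`.

`nu_box_le`: `ν(X, D) ≤ ν(F, DF) + ν(Y, DY)`.
PROOF. `nu_eq_sup` for `X`: let `A` be a divisor on `X`, and `A ≤ B + div g`, `B = AF ⊞ AY`
(`exists_box_ge`). For every `m`: `f ↦ f g ^ (-1)`... precisely: `f ∈ H⁰(m D + A)` implies
`f g ∈ H⁰(m D + B)` (`P (f g) = P f + P g ≥ -m D P - A P + P g ≥ -m D P - B P`), injective, so
`dim H⁰(m D + A) ≤ dim H⁰(m D + B) = dim H⁰(m DF + AF) · dim H⁰(m DY + AY)` (`sdim_box`,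
`IsBox.smul`, `IsBox.add`; `sdim_le_of_mul` / `sdim_sec_le`). By monotonicity of `logGrowth`
(`logGrowth_le_of_le` with `C = 1`, `φ = id`), `logGrowth_mul_le` (bounds from `finite_h0`) and
`nu_eq_sup` for `F` and `Y` (`le_iSup`) the growth is `≤ ν(F, DF) + ν(Y, DY)`.
-/

namespace Pool.Agent.Helper30.PV

open Pool.Agent.Helper92.Weak Pool.Agent.Helper47.PQ

variable {k M K E : Type*} [Field k] [Field M] [Field K] [Field E]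
  [Algebra k M] [Algebra k K] [Algebra k E] [Algebra M E] [Algebra K E]
  [IsScalarTower k M E] [IsScalarTower k K E] [IsAlgClosed k]

variable {F : ProjVar k M} {Y : ProjVar k K} {X : ProjVar k E}

theorem kod_box (h : IsProduct F Y X) {DF : F.Div} {DY : Y.Div} {D : X.Div}
    (hD : IsBox DF DY D) : X.kod D = F.kod DF + Y.kod DY := by
  have hbox : ∀ m : ℕ, X.h0 ((m : ℚ) • D) = F.h0 ((m : ℚ) • DF) * Y.h0 ((m : ℚ) • DY) :=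
    fun m => h0_box h (hD.smul (m : ℚ))
  have hzero : (∀ m : ℕ, 1 ≤ m → X.h0 ((m : ℚ) • D) = 0) → X.kod D = ⊥ := by
    intro h0
    unfold ProjVar.kod kodDim
    rw [if_pos h0]
  rcases regular DF with ⟨h1, h2⟩ | ⟨d₁, C₁, m₁, hk₁, hm₁, -, hl₁, hu₁⟩
  · rw [h2, EReal.bot_add]
    apply hzero
    intro m hm
    have h3 := F.h0_le ((m : ℚ) • DF)
    rw [h1 m hm, sdim_bot] at h3
    rw [hbox, le_antisymm h3 zero_le, zero_mul]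
  rcases regular DY with ⟨h1, h2⟩ | ⟨d₂, C₂, m₂, hk₂, hm₂, -, hl₂, hu₂⟩
  · rw [h2, EReal.add_bot]
    apply hzero
    intro m hm
    have h3 := Y.h0_le ((m : ℚ) • DY)
    rw [h1 m hm, sdim_bot] at h3
    rw [hbox, le_antisymm h3 zero_le, mul_zero]
  rw [hk₁, hk₂]
  have h5 : ((d₁ : EReal) + (d₂ : EReal)) = ((d₁ + d₂ : ℕ) : EReal) := by push_cast; rfl
  rw [h5]
  unfold ProjVar.kod
  refine kodDim_eq_of_bounds (m₀ := m₁ * m₂) (C := C₁ * C₂) (Nat.mul_pos hm₁ hm₂) ?_ ?_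
  · intro m hm
    have e1 := hl₁ (m * m₂) (Nat.mul_pos hm hm₂)
    have e2 := hl₂ (m * m₁) (Nat.mul_pos hm hm₁)
    have e3 : m * m₂ * m₁ = m * (m₁ * m₂) := by ring
    have e4 : m * m₁ * m₂ = m * (m₁ * m₂) := by ring
    rw [e3] at e1
    rw [e4] at e2
    have e5 : (m : ℕ∞) ≤ ((m * m₂ : ℕ) : ℕ∞) := by
      exact_mod_cast Nat.le_mul_of_pos_right m hm₂
    have e6 : (m : ℕ∞) ≤ ((m * m₁ : ℕ) : ℕ∞) := by
      exact_mod_cast Nat.le_mul_of_pos_right m hm₁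
    change (m : ℕ∞) ^ (d₁ + d₂) ≤ ((C₁ * C₂ : ℕ) : ℕ∞) * X.h0 (((m * (m₁ * m₂) : ℕ) : ℚ) • D)
    calc (m : ℕ∞) ^ (d₁ + d₂) = (m : ℕ∞) ^ d₁ * (m : ℕ∞) ^ d₂ := pow_add _ _ _
      _ ≤ ((m * m₂ : ℕ) : ℕ∞) ^ d₁ * ((m * m₁ : ℕ) : ℕ∞) ^ d₂ :=
          mul_le_mul' (pow_le_pow_left' e5 _) (pow_le_pow_left' e6 _)
      _ ≤ (C₁ * F.h0 (((m * (m₁ * m₂) : ℕ) : ℚ) • DF)) *
          (C₂ * Y.h0 (((m * (m₁ * m₂) : ℕ) : ℚ) • DY)) := mul_le_mul' e1 e2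
      _ = ((C₁ * C₂ : ℕ) : ℕ∞) * X.h0 (((m * (m₁ * m₂) : ℕ) : ℚ) • D) := by
          rw [hbox, Nat.cast_mul C₁ C₂, mul_mul_mul_comm]
  · intro m hm
    change X.h0 ((m : ℚ) • D) ≤ _
    rw [hbox]
    calc F.h0 ((m : ℚ) • DF) * Y.h0 ((m : ℚ) • DY) ≤
        sdim (F.H0 ((m : ℚ) • DF)) * sdim (Y.H0 ((m : ℚ) • DY)) :=
          mul_le_mul' (F.h0_le _) (Y.h0_le _)
      _ ≤ (C₁ * (m : ℕ∞) ^ d₁) * (C₂ * (m : ℕ∞) ^ d₂) := mul_le_mul' (hu₁ m hm) (hu₂ m hm)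
      _ = ((C₁ * C₂ : ℕ) : ℕ∞) * (m : ℕ∞) ^ (d₁ + d₂) := by
          rw [Nat.cast_mul C₁ C₂, pow_add, mul_mul_mul_comm]

theorem nu_box_le (h : IsProduct F Y X) {DF : F.Div} {DY : Y.Div} {D : X.Div}
    (hD : IsBox DF DY D) : X.nu D ≤ F.nu DF + Y.nu DY := by
  rw [nu_eq_sup]
  refine iSup_le fun A => ?_
  obtain ⟨AF, AY, B, g, hg, hB, hAB⟩ := exists_box_ge h A
  have hbox : ∀ m : ℕ, sdim (X.H0 ((m : ℚ) • D + B)) =
      sdim (F.H0 ((m : ℚ) • DF + AF)) * sdim (Y.H0 ((m : ℚ) • DY + AY)) :=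
    fun m => sdim_box h ((hD.smul (m : ℚ)).add hB)
  have h1 : logGrowth (fun m => sdim (X.H0 ((m : ℚ) • D + A))) ≤
      logGrowth (fun m => sdim (F.H0 ((m : ℚ) • DF + AF)) *
        sdim (Y.H0 ((m : ℚ) • DY + AY))) := by
    refine logGrowth_le_of_le (C := 1) (φ := fun m => m) Filter.tendsto_id (a := 1) (c := 0)
      (fun m => by simp) fun m _ => ?_
    rw [Nat.cast_one, one_mul, ← hbox]
    apply sdim_sec_le g hg
    intro P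
    rw [Finsupp.add_apply, Finsupp.add_apply]
    linarith [hAB P]
  obtain ⟨C₁, n₁, hb₁⟩ := finite_h0 DF AF
  obtain ⟨C₂, n₂, hb₂⟩ := finite_h0 DY AY
  refine h1.trans ((logGrowth_mul_le hb₁ hb₂).trans (add_le_add ?_ ?_))
  · rw [nu_eq_sup]
    exact le_iSup (fun A : F.Div => logGrowth fun m => sdim (F.H0 ((m : ℚ) • DF + A))) AF
  · rw [nu_eq_sup]
    exact le_iSup (fun A : Y.Div => logGrowth fun m => sdim (Y.H0 ((m : ℚ) • DY + A))) AY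

end Pool.Agent.Helper30.PV
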