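import Pool.Agent.Helper30.PV.Kun2
import Pool.Agent.Helper30.PV.SeqGrow
import Pool.Agent.Helper47.PQ.D10

set_option autoImplicit false
set_option linter.unusedSectionVars false

/-!
# PV-S3: lower bound for the numerical dimension of box divisors

`le_nu_box`: if `κ(F, DF) ≠ -∞` then `κ(F, DF) + ν(Y, DY) ≤ ν(X, D)`, `D = DF ⊞ DY`.
PROOF. By `regular DF`: `κ(F, DF) = d`, `m ^ d ≤ C h⁰(F, m m₀ DF) ≤ C dim H⁰(F, m m₀ DF)` for `m ≥ 1`
(`h0_le`). Let `AF = m₀ • |DF|` (`Finsupp.mapRange`), so `AF ≥ 0` and `r DF + AF ≥ 0` for `0 ≤ r ≤ m₀`.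
For `m ≥ 1` write `m = q m₀ + r`, `0 ≤ r < m₀`. Then `m DF + AF ≥ q m₀ DF`, so
`dim H⁰(m DF + AF) ≥ dim H⁰(q m₀ DF)` (`sec_mono`, `sdim_mono`). If `q ≥ 1` this is
`≥ q ^ d / C` and `m ≤ 2 m₀ q`, so `m ^ d ≤ (2 m₀) ^ d C dim H⁰(m DF + AF)`. If `q = 0` then `m < m₀`
and `1 ∈ H⁰(m DF + AF)`, so `m ^ d ≤ m₀ ^ d dim H⁰(m DF + AF)`. So with
`C' = (2 m₀) ^ d (C + 1)`: `m ^ d ≤ C' dim H⁰(m DF + AF)` for all `m ≥ 1`. By `nu_eq_sup` for `Y` it is
enough to show `d + logGrowth (dim H⁰(m DY + AY)) ≤ ν(X, D)` for all `AY` (`EReal`: `d + sup = sup`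
of `d + ·`; for instance move `d` to the other side, `EReal.le_sub_iff_add_le` or
`EReal.add_iSup`-like lemmas; or show `sup ≤ ν - d`). Let `A` be the box of `AF` and `AY`
(`exists_box`); by `sdim_box` `dim H⁰(m D + A) = dim H⁰(m DF + AF) dim H⁰(m DY + AY)`; use
`le_logGrowth_mul` and `nu_eq_sup` for `X` (`le_iSup`).
-/

namespace Pool.Agent.Helper30.PV

open Pool.Agent.Helper92.Weak Pool.Agent.Helper47.PQ

variable {k M K E : Type*} [Field k] [Field M] [Field K] [Field E]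
  [Algebra k M] [Algebra k K] [Algebra k E] [Algebra M E] [Algebra K E]
  [IsScalarTower k M E] [IsScalarTower k K E] [IsAlgClosed k]

variable {F : ProjVar k M} {Y : ProjVar k K} {X : ProjVar k E}

theorem le_nu_box (h : IsProduct F Y X) {DF : F.Div} {DY : Y.Div} {D : X.Div}
    (hD : IsBox DF DY D) (hk : F.kod DF ≠ ⊥) : F.kod DF + Y.nu DY ≤ X.nu D := by
  rcases regular DF with ⟨-, hbot⟩ | ⟨d, C, m₀, hd, hm₀, -, hlow, -⟩
  · exact absurd hbot hk
  rw [hd]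
  -- the divisor `AF`
  set AF : F.Div := (m₀ : ℚ) • DF.mapRange (fun x => |x|) abs_zero with hAF
  have hAFP : ∀ P, AF P = m₀ * |DF P| := fun P => by
    rw [hAF, Finsupp.smul_apply, Finsupp.mapRange_apply, smul_eq_mul]
  have hcomp : ∀ m : ℕ, sdim (F.H0 (((m / m₀ * m₀ : ℕ) : ℚ) • DF)) ≤
      sdim (F.H0 ((m : ℚ) • DF + AF)) := by
    intro m
    apply sdim_mono
    apply sec_mono
    intro P
    rw [Finsupp.add_apply, Finsupp.smul_apply, Finsupp.smul_apply, hAFP, smul_eq_mul, smul_eq_mul]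
    have h1 : (m : ℚ) = ((m / m₀ * m₀ : ℕ) : ℚ) + ((m % m₀ : ℕ) : ℚ) := by
      rw [← Nat.cast_add]
      congr 1
      have := Nat.div_add_mod m m₀
      rw [mul_comm] at this
      exact this.symm
    rw [h1, add_mul, add_assoc, le_add_iff_nonneg_right]
    have h2 : ((m % m₀ : ℕ) : ℚ) ≤ m₀ := by
      exact_mod_cast (Nat.mod_lt m (by omega)).le
    have h3 : 0 ≤ ((m % m₀ : ℕ) : ℚ) := Nat.cast_nonneg _
    have h4 := neg_abs_le (DF P)
    have h5 := abs_nonneg (DF P)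
    nlinarith [mul_le_mul_of_nonneg_left h4 h3, mul_le_mul_of_nonneg_right h2 h5]
  have hkey : ∀ m : ℕ, 1 ≤ m → (m : ℕ∞) ^ d ≤
      (((2 * m₀) ^ d * (C + 1) : ℕ) : ℕ∞) * sdim (F.H0 ((m : ℚ) • DF + AF)) := by
    intro m hm
    rcases Nat.eq_zero_or_pos (m / m₀) with hq | hq
    · have hlt : m < m₀ := by
        rcases Nat.div_eq_zero_iff.mp hq with h1 | h1
        · omega
        · exact h1
      have h1 := hcomp m
      rw [hq, zero_mul, Nat.cast_zero, zero_smul] at h1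
      have h2 : (1 : ℕ∞) ≤ sdim (F.H0 (0 : F.Div)) := by
        rw [ENat.one_le_iff_ne_zero, sdim_ne_zero]
        refine ⟨1, ?_, one_ne_zero⟩
        rw [ProjVar.H0, mem_sec_of_ne one_ne_zero]
        intro P
        rw [DVal.map_one]
        simp
      have h3 : m ^ d ≤ (2 * m₀) ^ d * (C + 1) := by
        calc m ^ d ≤ (2 * m₀) ^ d := Nat.pow_le_pow_left (by omega) d
          _ ≤ (2 * m₀) ^ d * (C + 1) := Nat.le_mul_of_pos_right _ (by omega)
      calc (m : ℕ∞) ^ d ≤ (((2 * m₀) ^ d * (C + 1) : ℕ) : ℕ∞) := by exact_mod_cast h3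
        _ = (((2 * m₀) ^ d * (C + 1) : ℕ) : ℕ∞) * 1 := (mul_one _).symm
        _ ≤ _ := mul_le_mul_right (h2.trans h1) _
    · have h1 := hcomp m
      have h2 := hlow (m / m₀) hq
      have h3 : m ≤ 2 * m₀ * (m / m₀) := by
        have h4 := Nat.div_add_mod m m₀
        have h5 := Nat.mod_lt m (show 0 < m₀ by omega)
        have h6 : m₀ ≤ m₀ * (m / m₀) := Nat.le_mul_of_pos_right _ hq
        nlinarith
      have h4 : m ^ d ≤ (2 * m₀) ^ d * (m / m₀) ^ d := by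
        rw [← mul_pow]
        exact Nat.pow_le_pow_left h3 d
      calc (m : ℕ∞) ^ d ≤ (((2 * m₀) ^ d : ℕ) : ℕ∞) * ((m / m₀ : ℕ) : ℕ∞) ^ d := by
            exact_mod_cast h4
        _ ≤ (((2 * m₀) ^ d : ℕ) : ℕ∞) * (C * F.h0 (((m / m₀ * m₀ : ℕ) : ℚ) • DF)) :=
            mul_le_mul_right h2 _
        _ ≤ (((2 * m₀) ^ d : ℕ) : ℕ∞) * ((C + 1 : ℕ) * sdim (F.H0 ((m : ℚ) • DF + AF))) := by
            apply mul_le_mul_right
            apply mul_le_mul'
            · exact_mod_cast Nat.le_succ C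
            · exact (F.h0_le _).trans h1
        _ = _ := by
            rw [← mul_assoc]
            push_cast
            rfl
  rw [nu_eq_sup DY, nu_eq_sup D]
  -- it is enough to treat each divisor on `Y`
  have hmain : ∀ AY : Y.Div, (d : EReal) +
      (logGrowth fun m => sdim (Y.H0 ((m : ℚ) • DY + AY))) ≤
      ⨆ A : X.Div, logGrowth fun m => sdim (X.H0 ((m : ℚ) • D + A)) := by
    intro AY
    obtain ⟨A, hA⟩ := h.exists_box AF AY
    refine le_trans ?_ (le_iSup _ A)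
    refine (le_logGrowth_mul hkey (h₂ := fun m => sdim (Y.H0 ((m : ℚ) • DY + AY)))).trans ?_
    apply le_of_eq
    congr 1
    funext m
    rw [sdim_box h ((hD.smul (m : ℚ)).add hA)]
  have hd1 : (d : EReal) ≠ ⊥ := EReal.natCast_ne_bot d
  have hd2 : (d : EReal) ≠ ⊤ := EReal.natCast_ne_top d
  rw [add_comm, ← EReal.le_sub_iff_add_le (Or.inl hd1) (Or.inl hd2)]
  refine iSup_le fun AY => ?_
  rw [EReal.le_sub_iff_add_le (Or.inl hd1) (Or.inl hd2), add_comm]
  exact hmain AY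

end Pool.Agent.Helper30.PV
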