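import Pool.Agent.Helper30.PV.Rational

set_option autoImplicit false
set_option linter.unusedSectionVars false

/-!
# PV-E2: if one factor is rational, every divisor on the product is decomposable

For an integral divisor `D` on `X`: `D = B + div g` with `B = DF ⊞ DY`, all integral.
PROOF. See the header of `Rational.lean`: let `P₁, ..., P_s` be the prime divisors in the support
of `D` which are trivial on `M` and `K`, with equations `fⱼ` (`exists_equation`);
`g = ∏ fⱼ ^ (D Pⱼ)` (`zpow`, `D Pⱼ ∈ ℤ`). Then `D - div g` is `0` at all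
prime divisors trivial on `M` and `K`. Put `DF T = (D - div g) (P_T)`, `P_T` the Gauss extension
of `T` (a prime divisor of `X`, `exists_gauss`, `gauss_mem`), and `DY` in the same way; finite
support because `T ↦ P_T` is injective (`T a = P_T a`); integral. `B := D - div g` is the box of
`DF` and `DY` (`IsBox` from `trichotomy`: if `LiesOver P Q e` with `Q ∈ Y.primeDivisors`, then `P`
is the Gauss extension of some `Q'`, and `Q' = Q`, `e = 1` as both are normalised, as in the proof
of `exists_box`, and Gauss extensions are unique, `IsGauss.unique`).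

`decomposable_of_vanish` is this last step: a divisor which vanishes at all the prime divisors
trivial on `M` and `K` is a box.
-/

namespace Pool.Agent.Helper30.PV

open Pool.Agent.Helper92.Weak Pool.Agent.Helper47.PQ

variable {k M K E : Type*} [Field k] [Field M] [Field K] [Field E]
  [Algebra k M] [Algebra k K] [Algebra k E] [Algebra M E] [Algebra K E]
  [IsScalarTower k M E] [IsScalarTower k K E] [IsAlgClosed k]

variable {F : ProjVar k M} {Y : ProjVar k K} {X : ProjVar k E}

theorem decomposable_of_vanish (h : IsProduct F Y X) (D : X.Div) (hD : X.IsInt D)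
    (h0 : ∀ P : X.primeDivisors, (∀ a : M, P.1 (algebraMap M E a) = 0) →
      (∀ b : K, P.1 (algebraMap K E b) = 0) → D P = 0) :
    ∃ (DF : F.Div) (DY : Y.Div), F.IsInt DF ∧ Y.IsInt DY ∧ IsBox DF DY D := by
  have hfr := h.isFrac_top
  have hfr' : IsFrac (prodRing E (⊤ : Subalgebra k K) (⊤ : Subalgebra k M)) := by
    rw [prodRing_comm]
    exact hfr
  have hdj := linDisj_symm h.disj
  choose wF hwF using fun T : F.primeDivisors => exists_gauss hdj hfr' T.1
  choose wY hwY using fun Q : Y.primeDivisors => exists_gauss h.disj hfr Q.1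
  let pF : F.primeDivisors → X.primeDivisors := fun T => ⟨wF T, h.swap.gauss_mem T.2 (hwF T)⟩
  let pY : Y.primeDivisors → X.primeDivisors := fun Q => ⟨wY Q, h.gauss_mem Q.2 (hwY Q)⟩
  have hF : Function.Injective pF := by
    intro T T' hTT
    have h1 : wF T = wF T' := congrArg Subtype.val hTT
    apply Subtype.ext
    ext a
    rw [← (hwF T).apply_right a, ← (hwF T').apply_right a, h1]
  have hY : Function.Injective pY := by
    intro T T' hTT
    have h1 : wY T = wY T' := congrArg Subtype.val hTT
    apply Subtype.ext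
    ext a
    rw [← (hwY T).apply_right a, ← (hwY T').apply_right a, h1]
  refine ⟨D.comapDomain pF hF.injOn, D.comapDomain pY hY.injOn, fun T => ?_, fun Q => ?_,
    ⟨h0, fun P T e he => ?_, fun P Q e he => ?_⟩⟩
  · rw [Finsupp.comapDomain_apply]
    exact hD _
  · rw [Finsupp.comapDomain_apply]
    exact hD _
  · obtain ⟨h1, h2⟩ := h.box_left P.2 he
    have h3 : P = pF T := Subtype.ext (IsGauss.unique h2 (hwF T) hdj hfr')
    rw [Finsupp.comapDomain_apply, h1, Nat.cast_one, one_mul, h3]
  · obtain ⟨h1, h2⟩ := h.box_right P.2 he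
    have h3 : P = pY Q := Subtype.ext (IsGauss.unique h2 (hwY Q) h.disj hfr)
    rw [Finsupp.comapDomain_apply, h1, Nat.cast_one, one_mul, h3]

theorem decomposable_of_rational (h : IsProduct F Y X) (hK : IsRational k K) (D : X.Div)
    (hD : X.IsInt D) :
    ∃ (g : E) (DF : F.Div) (DY : Y.Div) (B : X.Div), g ≠ 0 ∧ F.IsInt DF ∧ Y.IsInt DY ∧
      IsBox DF DY B ∧ D = B + X.prin g := by
  classical
  choose z hz using hD
  let Tr : X.primeDivisors → Prop := fun P =>
    (∀ a : M, P.1 (algebraMap M E a) = 0) ∧ ∀ b : K, P.1 (algebraMap K E b) = 0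
  have hex : ∀ P : X.primeDivisors, ∃ f : E, f ≠ 0 ∧ (Tr P → P.1 f = 1 ∧
      ∀ Q : X.primeDivisors, Tr Q → Q ≠ P → Q.1 f = 0) := by
    intro P
    by_cases hP : Tr P
    · obtain ⟨f, hf, h1, h2⟩ := exists_equation h hK P.2 hP.1 hP.2
      exact ⟨f, hf, fun _ => ⟨h1, fun Q hQ hne => h2 Q.1 Q.2 hQ.1 hQ.2 fun he =>
        hne (Subtype.ext he)⟩⟩
    · exact ⟨1, one_ne_zero, fun h => absurd h hP⟩
  choose f hf hf1 using hex
  let S := D.support.filter Tr
  let g : E := ∏ P ∈ S, f P ^ z P
  have hg : g ≠ 0 := Finset.prod_ne_zero_iff.2 fun P _ => zpow_ne_zero _ (hf P)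
  have hval : ∀ P : X.primeDivisors, Tr P → P.1 g = z P := by
    intro P hP
    have h1 : P.1 g = ∑ Q ∈ S, P.1 (f Q ^ z Q) :=
      DVal.map_prod P.1 S (fun Q => f Q ^ z Q) fun Q _ => zpow_ne_zero _ (hf Q)
    rw [h1]
    by_cases hPS : P ∈ S
    · rw [Finset.sum_eq_single P]
      · rw [DVal.map_zpow, (hf1 P hP).1, mul_one]
      · intro Q hQ hne
        have hQ' : Tr Q := (Finset.mem_filter.1 hQ).2
        rw [DVal.map_zpow, (hf1 Q hQ').2 P hP hne.symm, mul_zero]
      · intro hn
        exact absurd hPS hn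
    · have h2 : D P = 0 := by
        by_contra hne
        exact hPS (Finset.mem_filter.2 ⟨Finsupp.mem_support_iff.2 hne, hP⟩)
      have h3 : z P = 0 := by
        have := hz P
        rw [h2] at this
        exact_mod_cast this.symm
      rw [h3]
      apply Finset.sum_eq_zero
      intro Q hQ
      have hQ' : Tr Q := (Finset.mem_filter.1 hQ).2
      have hne : P ≠ Q := by
        rintro rfl
        exact hPS hQ
      rw [DVal.map_zpow, (hf1 Q hQ').2 P hP hne, mul_zero]
  obtain ⟨DF, DY, hDF, hDY, hB⟩ := decomposable_of_vanish h (D - X.prin g) (fun P =>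
    ⟨z P - P.1 g, by
      rw [Finsupp.sub_apply, hz, ProjVar.prin_apply]
      push_cast
      rfl⟩) (fun P h1 h2 => by
      rw [Finsupp.sub_apply, hz, ProjVar.prin_apply, hval P ⟨h1, h2⟩, sub_self])
  exact ⟨g, DF, DY, D - X.prin g, hg, hDF, hDY, hB, (sub_add_cancel _ _).symm⟩

end Pool.Agent.Helper30.PV
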