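import Pool.Agent.Helper30.PV.LCBox
import Pool.Agent.Helper30.PV.BoxGrow
import Pool.Agent.Helper30.PV.BoxNu
import Pool.Agent.Helper30.PV.Decomp
import Pool.Agent.Helper47.PQ.R3
import Pool.Agent.Helper47.PQ.R4
import Pool.Agent.Helper47.PQ.D10

set_option autoImplicit false
set_option linter.unusedSectionVars false

/-!
# PV-M: the product theorem
-/

namespace Pool.Agent.Helper30.PV

open Pool.Agent.Helper92.Weak Pool.Agent.Helper47.PQ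

/-- Arithmetic of the invariants. -/
theorem ereal_iff {kX nX k1 n1 k2 n2 : EReal} (hk : kX = k1 + k2) (hn : nX ≤ n1 + n2)
    (hkn : kX ≤ nX) (hkn1 : k1 ≤ n1) (hkn2 : k2 ≤ n2) (h1 : k1 ≠ ⊥ → k1 + n2 ≤ nX)
    (h2 : k2 ≠ ⊥ → k2 + n1 ≤ nX) (ht1 : k1 ≠ ⊤) (ht2 : k2 ≠ ⊤) :
    (k1 = n1 → k2 = n2 → kX = nX) ∧ (kX ≠ ⊥ → (kX = nX ↔ k1 = n1 ∧ k2 = n2)) := by
  have hA : k1 = n1 → k2 = n2 → kX = nX := by
    intro e1 e2
    refine le_antisymm hkn ?_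
    rw [hk, e1, e2]
    exact hn
  refine ⟨hA, fun hb => ⟨fun he => ?_, fun ⟨e1, e2⟩ => hA e1 e2⟩⟩
  have hk1 : k1 ≠ ⊥ := by
    intro h0
    apply hb
    rw [hk, h0, EReal.bot_add]
  have hk2 : k2 ≠ ⊥ := by
    intro h0
    apply hb
    rw [hk, h0, EReal.add_bot]
  lift k1 to ℝ using ⟨ht1, hk1⟩
  lift k2 to ℝ using ⟨ht2, hk2⟩
  have e1 := h1 hk1
  have e2 := h2 hk2
  rw [← he, hk] at e1 e2
  constructor
  · refine le_antisymm hkn1 ?_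
    have e3 : (k2 : EReal) + n1 ≤ k2 + k1 := by rwa [add_comm (k1 : EReal) k2] at e2
    have hn1 : n1 ≠ ⊤ := by
      rintro rfl
      rw [EReal.add_top_of_ne_bot hk2] at e3
      exact absurd (top_le_iff.1 e3) (by exact_mod_cast EReal.coe_ne_top _)
    have hn1' : n1 ≠ ⊥ := by
      rintro rfl
      exact hk1 (le_bot_iff.1 hkn1)
    lift n1 to ℝ using ⟨hn1, hn1'⟩
    have e4 : k2 + n1 ≤ k2 + k1 := by exact_mod_cast e3
    have e5 : n1 ≤ k1 := by linarith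
    exact_mod_cast e5
  · refine le_antisymm hkn2 ?_
    have hn1 : n2 ≠ ⊤ := by
      rintro rfl
      rw [EReal.add_top_of_ne_bot hk1] at e1
      exact absurd (top_le_iff.1 e1) (by exact_mod_cast EReal.coe_ne_top _)
    have hn1' : n2 ≠ ⊥ := by
      rintro rfl
      exact hk2 (le_bot_iff.1 hkn2)
    lift n2 to ℝ using ⟨hn1, hn1'⟩
    have e4 : k1 + n2 ≤ k1 + k2 := by exact_mod_cast e1
    have e5 : n2 ≤ k2 := by linarith
    exact_mod_cast e5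

section

variable {k L : Type*} [Field k] [Field L] [Algebra k L] [IsAlgClosed k]

theorem kod_ne_top (X : ProjVar k L) (D : X.Div) : X.kod D ≠ ⊤ := by
  rcases regular D with ⟨-, h⟩ | ⟨d, C, m₀, h, -⟩
  · rw [h]
    exact bot_ne_top
  · rw [h]
    exact EReal.natCast_ne_top d

end

variable {k M K E L : Type*} [Field k] [Field M] [Field K] [Field E] [Field L]
  [Algebra k M] [Algebra k K] [Algebra k E] [Algebra M E] [Algebra K E]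
  [IsScalarTower k M E] [IsScalarTower k K E] [Algebra k L] [Algebra L E] [IsScalarTower k L E]
  [IsAlgClosed k] [CharZero k]

variable {F : ProjVar k M} {Y : ProjVar k K} {X' : ProjVar k E} {X : ProjVar k L}

/-- The invariants of a divisor on `X` whose pull back to the product `X'` is, up to linear
equivalence, a box divisor. -/
theorem invariants (h : IsProduct F Y X') (hc : IsFiniteCover X' X) {N : ℕ} (hN : 1 ≤ N)
    {D : X.Div} {D' : X'.Div} (hD : IsPull ((N : ℚ) • D) D') {DF : F.Div} {DY : Y.Div}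
    {D₀ : X'.Div} (hD₀ : IsBox DF DY D₀) {ψ : E} (hψ : ψ ≠ 0) (hD' : D' = D₀ + X'.prin ψ) :
    X.kod D = F.kod DF + Y.kod DY ∧ X.nu D ≤ F.nu DF + Y.nu DY ∧
    (F.kod DF ≠ ⊥ → F.kod DF + Y.nu DY ≤ X.nu D) ∧
    (Y.kod DY ≠ ⊥ → Y.kod DY + F.nu DF ≤ X.nu D) ∧
    (F.kod DF = F.nu DF → Y.kod DY = Y.nu DY → X.kod D = X.nu D) ∧
    (X.kod D ≠ ⊥ → (X.kod D = X.nu D ↔ F.kod DF = F.nu DF ∧ Y.kod DY = Y.nu DY)) := by
  have hk : X.kod D = X'.kod D₀ := by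
    rw [← kod_smul D hN, ← hc.kod_pull hD, hD', ProjVar.kod_add_prin _ hψ]
  have hn : X.nu D = X'.nu D₀ := by
    rw [← nu_smul D hN, ← hc.nu_pull hD, hD', ProjVar.nu_add_prin _ hψ]
  have e1 : X.kod D = F.kod DF + Y.kod DY := by rw [hk, kod_box h hD₀]
  have e2 : X.nu D ≤ F.nu DF + Y.nu DY := by rw [hn]; exact nu_box_le h hD₀
  have e3 : F.kod DF ≠ ⊥ → F.kod DF + Y.nu DY ≤ X.nu D := by
    intro hne; rw [hn]; exact le_nu_box h hD₀ hne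
  have e4 : Y.kod DY ≠ ⊥ → Y.kod DY + F.nu DF ≤ X.nu D := by
    intro hne; rw [hn]; exact le_nu_box h.swap hD₀.swap hne
  have e5 := ereal_iff e1 e2 (kod_le_nu D) (kod_le_nu DF) (kod_le_nu DY) e3 e4
    (kod_ne_top F DF) (kod_ne_top Y DY)
  exact ⟨e1, e2, e3, e4, e5.1, e5.2⟩

theorem isDecomposable_of_rational (h : IsProduct F Y X') (hr : IsRational k M ∨ IsRational k K)
    {B : X'.Div} (hB : X'.IsInt B) : IsDecomposable F Y B := by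
  rcases hr with hr | hr
  · obtain ⟨g, DY, DF, D₀, hg, hY, hF, hb, he⟩ := decomposable_of_rational h.swap hr B hB
    exact ⟨g, DF, DY, D₀, hg, hF, hY, hb.swap, he⟩
  · obtain ⟨g, DF, DY, D₀, hg, hF, hY, hb, he⟩ := decomposable_of_rational h hr B hB
    exact ⟨g, DF, DY, D₀, hg, hF, hY, hb, he⟩

/-- The product theorem. -/
theorem product_theorem (h : IsProduct F Y X') (hc : IsFiniteCover X' X) {m n : ℕ}
    (hm : Algebra.trdeg k M = m) (hn : Algebra.trdeg k K = n)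
    {ωF : Form k M m} {CF : F.Div} (hF : F.IsDivisorOf ωF CF)
    {ωY : Form k K n} {CY : Y.Div} (hY : Y.IsDivisorOf ωY CY)
    {ω : Form k E (m + n)} {C : X'.Div} (hX : X'.IsDivisorOf ω C)
    {N : ℕ} {𝔅 : Set X'.Div} (hlc : LCSys X' ω C N 𝔅)
    (hdec : IsRational k M ∨ IsRational k K ∨ ∃ B ∈ 𝔅, IsDecomposable F Y B) :
    ∃ (𝔉 : Set F.Div) (𝔜 : Set Y.Div), LCSys F ωF CF N 𝔉 ∧ LCSys Y ωY CY N 𝔜 ∧
      (IsKltSys X' ω C N 𝔅 → IsKltSys F ωF CF N 𝔉 ∧ IsKltSys Y ωY CY N 𝔜) ∧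
      (∀ BF ∈ 𝔉, ∃ B ∈ 𝔅, ∀ (P : X'.primeDivisors) (T : F.primeDivisors),
        LiesOver P.1 T.1 1 → B P ≤ BF T) ∧
      (∀ BY ∈ 𝔜, ∃ B ∈ 𝔅, ∀ (P : X'.primeDivisors) (Q : Y.primeDivisors),
        LiesOver P.1 Q.1 1 → B P ≤ BY Q) ∧
      ∀ BF ∈ 𝔉, ∀ BY ∈ 𝔜, ∀ B ∈ 𝔅, ∀ D : X.Div, IsPull ((N : ℚ) • D) ((N : ℚ) • C + B) →
        ∀ (DF : F.Div) (DY : Y.Div), DF = (N : ℚ) • CF + BF → DY = (N : ℚ) • CY + BY →
        X.kod D = F.kod DF + Y.kod DY ∧ X.nu D ≤ F.nu DF + Y.nu DY ∧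
        (F.kod DF ≠ ⊥ → F.kod DF + Y.nu DY ≤ X.nu D) ∧
        (Y.kod DY ≠ ⊥ → Y.kod DY + F.nu DF ≤ X.nu D) ∧
        (F.kod DF = F.nu DF → Y.kod DY = Y.nu DY → X.kod D = X.nu D) ∧
        (X.kod D ≠ ⊥ → (X.kod D = X.nu D ↔ F.kod DF = F.nu DF ∧ Y.kod DY = Y.nu DY)) := by
  obtain ⟨B₁, hB₁, hd⟩ : ∃ B ∈ 𝔅, IsDecomposable F Y B := by
    rcases hdec with hr | hr | hd
    · obtain ⟨B, hB⟩ := hlc.nonempty
      exact ⟨B, hB, isDecomposable_of_rational h (Or.inl hr) (hlc.isInt B hB)⟩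
    · obtain ⟨B, hB⟩ := hlc.nonempty
      exact ⟨B, hB, isDecomposable_of_rational h (Or.inr hr) (hlc.isInt B hB)⟩
    · exact hd
  obtain ⟨𝔉, 𝔜, h1, h2, h3, h4, h5, h6⟩ := exists_lcSys h hm hn hF hY hX hlc hB₁ hd
  refine ⟨𝔉, 𝔜, h1, h2, h3, h4, h5, fun BF hBF BY hBY B hB D hD DF DY hDF hDY => ?_⟩
  obtain ⟨D₀, ψ, hψ, hbox, he⟩ := h6 BF hBF BY hBY B hB
  subst hDF
  subst hDY
  exact invariants h hc hlc.pos hD hbox hψ he

end Pool.Agent.Helper30.PV
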