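import Pool.Agent.Helper30.PV.Main

set_option autoImplicit false
set_option linter.unusedSectionVars false

/-!
# PV-F: the product theorem, final form
-/

namespace Pool.Agent.Helper30.PV

open Pool.Agent.Helper92.Weak Pool.Agent.Helper47.PQ

section Smul

variable {k L : Type*} [Field k] [Field L] [Algebra k L] {X : ProjVar k L} {n : ℕ}
  {ω : Form k L n} {C : X.Div} {N : ℕ} {𝔅 : Set X.Div}

/-- The multiples of the members of a set of divisors. -/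
def mulSys (q : ℕ) (𝔅 : Set X.Div) : Set X.Div := {B | ∃ B' ∈ 𝔅, B = (q : ℚ) • B'}

theorem smul_adj (q N : ℕ) (C B : X.Div) :
    ((q * N : ℕ) : ℚ) • C + (q : ℚ) • B = (q : ℚ) • ((N : ℚ) • C + B) := by
  rw [smul_add, smul_smul]
  push_cast
  rfl

theorem value_smul {q : ℕ} (hq : 1 ≤ q) {v : DVal k L} {D : X.Div} {c : ℚ}
    (h : X.IsValue v ((q : ℚ) • D) c) : X.IsValue v D (c / q) := by
  have hq0 : (q : ℚ) ≠ 0 := by
    have : q ≠ 0 := by omega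
    exact_mod_cast this
  have h1 := h.smul ((q : ℚ)⁻¹)
  rw [smul_smul, inv_mul_cancel₀ hq0, one_smul, mul_comm, ← div_eq_mul_inv] at h1
  exact h1

theorem lcSys_smul (h : LCSys X ω C N 𝔅) {q : ℕ} (hq : 1 ≤ q) :
    LCSys X ω C (q * N) (mulSys q 𝔅) := by
  have hq0 : (0 : ℚ) < q := by
    have : 0 < q := hq
    exact_mod_cast this
  refine ⟨Nat.mul_pos hq h.pos, ?_, ?_, ?_, ?_, ?_, ?_, ?_⟩
  · have : mulSys q 𝔅 = (fun B' : X.Div => (q : ℚ) • B') '' 𝔅 := by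
      ext B
      constructor
      · rintro ⟨B', hB', rfl⟩
        exact ⟨B', hB', rfl⟩
      · rintro ⟨B', hB', rfl⟩
        exact ⟨B', hB', rfl⟩
    rw [this]
    exact h.finite.image _
  · obtain ⟨B, hB⟩ := h.nonempty
    exact ⟨_, B, hB, rfl⟩
  · rintro _ ⟨B, hB, rfl⟩
    exact (h.isInt B hB).nsmul q
  · rintro _ ⟨B, hB, rfl⟩ P
    rw [Finsupp.smul_apply, smul_eq_mul]
    exact mul_nonneg hq0.le (h.nonneg B hB P)
  · rintro _ ⟨B, hB, rfl⟩ _ ⟨B', hB', rfl⟩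
    obtain ⟨ψ, hψ, h1⟩ := h.linEquiv B hB B' hB'
    refine ⟨ψ ^ q, pow_ne_zero _ hψ, fun P => ?_⟩
    rw [Finsupp.smul_apply, Finsupp.smul_apply, smul_eq_mul, smul_eq_mul, h1, DVal.map_pow]
    push_cast
    ring
  · rintro _ ⟨B, hB, rfl⟩ R hR
    obtain ⟨m, hm, f, hf0, hf⟩ := h.qcartier B hB R hR
    refine ⟨m, hm, f ^ q, pow_ne_zero _ hf0, fun P hP => ?_⟩
    rw [smul_adj, smul_comm, Finsupp.smul_apply, ← hf P hP, DVal.map_pow, smul_eq_mul]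
    push_cast
    rfl
  · intro v hv a ha
    obtain ⟨B, hB, h1⟩ := h.lc v hv a ha
    refine ⟨_, ⟨B, hB, rfl⟩, fun c hc => ?_⟩
    rw [smul_adj] at hc
    have h2 := h1 _ (value_smul hq hc)
    rw [div_le_iff₀ hq0] at h2
    push_cast
    linarith

theorem kltSys_smul (h : IsKltSys X ω C N 𝔅) {q : ℕ} (hq : 1 ≤ q) :
    IsKltSys X ω C (q * N) (mulSys q 𝔅) := by
  have hq0 : (0 : ℚ) < q := by
    have : 0 < q := hq
    exact_mod_cast this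
  intro v hv a ha
  obtain ⟨B, hB, h1⟩ := h v hv a ha
  refine ⟨_, ⟨B, hB, rfl⟩, fun c hc => ?_⟩
  rw [smul_adj] at hc
  have h2 := h1 _ (value_smul hq hc)
  rw [div_lt_iff₀ hq0] at h2
  push_cast
  linarith

end Smul

variable {k M K E L : Type*} [Field k] [Field M] [Field K] [Field E] [Field L]
  [Algebra k M] [Algebra k K] [Algebra k E] [Algebra M E] [Algebra K E]
  [IsScalarTower k M E] [IsScalarTower k K E] [Algebra k L] [Algebra L E] [IsScalarTower k L E]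
  [IsAlgClosed k] [CharZero k]

variable {F : ProjVar k M} {Y : ProjVar k K} {X' : ProjVar k E} {X : ProjVar k L}

/-- The product theorem, with a multiple of the boundary decomposable. -/
theorem product_theorem' (h : IsProduct F Y X') (hc : IsFiniteCover X' X) {m n : ℕ}
    (hm : Algebra.trdeg k M = m) (hn : Algebra.trdeg k K = n)
    {ωF : Form k M m} {CF : F.Div} (hF : F.IsDivisorOf ωF CF)
    {ωY : Form k K n} {CY : Y.Div} (hY : Y.IsDivisorOf ωY CY)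
    {ω : Form k E (m + n)} {C : X'.Div} (hX : X'.IsDivisorOf ω C)
    {N : ℕ} {𝔅 : Set X'.Div} (hlc : LCSys X' ω C N 𝔅)
    (hdec : IsRational k M ∨ IsRational k K ∨
      ∃ B ∈ 𝔅, ∃ q : ℕ, 1 ≤ q ∧ IsDecomposable F Y ((q : ℚ) • B)) :
    ∃ (N₁ : ℕ) (𝔉 : Set F.Div) (𝔜 : Set Y.Div), LCSys F ωF CF N₁ 𝔉 ∧ LCSys Y ωY CY N₁ 𝔜 ∧
      (IsKltSys X' ω C N 𝔅 → IsKltSys F ωF CF N₁ 𝔉 ∧ IsKltSys Y ωY CY N₁ 𝔜) ∧
      (∀ BF ∈ 𝔉, ∃ B ∈ 𝔅, ∀ (P : X'.primeDivisors) (T : F.primeDivisors),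
        LiesOver P.1 T.1 1 → B P / N ≤ BF T / N₁) ∧
      (∀ BY ∈ 𝔜, ∃ B ∈ 𝔅, ∀ (P : X'.primeDivisors) (Q : Y.primeDivisors),
        LiesOver P.1 Q.1 1 → B P / N ≤ BY Q / N₁) ∧
      ∀ BF ∈ 𝔉, ∀ BY ∈ 𝔜, ∀ B ∈ 𝔅, ∀ D : X.Div, IsPull ((N : ℚ) • D) ((N : ℚ) • C + B) →
        ∀ (DF : F.Div) (DY : Y.Div), DF = (N₁ : ℚ) • CF + BF → DY = (N₁ : ℚ) • CY + BY →
        X.kod D = F.kod DF + Y.kod DY ∧ X.nu D ≤ F.nu DF + Y.nu DY ∧
        (F.kod DF ≠ ⊥ → F.kod DF + Y.nu DY ≤ X.nu D) ∧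
        (Y.kod DY ≠ ⊥ → Y.kod DY + F.nu DF ≤ X.nu D) ∧
        (F.kod DF = F.nu DF → Y.kod DY = Y.nu DY → X.kod D = X.nu D) ∧
        (X.kod D ≠ ⊥ → (X.kod D = X.nu D ↔ F.kod DF = F.nu DF ∧ Y.kod DY = Y.nu DY)) := by
  obtain ⟨q, hq, hd⟩ : ∃ q : ℕ, 1 ≤ q ∧ (IsRational k M ∨ IsRational k K ∨
      ∃ B ∈ mulSys q 𝔅, IsDecomposable F Y B) := by
    rcases hdec with hr | hr | ⟨B, hB, q, hq, hd⟩
    · exact ⟨1, le_rfl, Or.inl hr⟩
    · exact ⟨1, le_rfl, Or.inr (Or.inl hr)⟩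
    · exact ⟨q, hq, Or.inr (Or.inr ⟨_, ⟨B, hB, rfl⟩, hd⟩)⟩
  have hq0 : (0 : ℚ) < q := by
    have : 0 < q := hq
    exact_mod_cast this
  have hN0 : (0 : ℚ) < N := by
    have := hlc.pos
    exact_mod_cast this
  obtain ⟨𝔉, 𝔜, h1, h2, h3, h4, h5, h6⟩ :=
    product_theorem h hc hm hn hF hY hX (lcSys_smul hlc hq) hd
  refine ⟨q * N, 𝔉, 𝔜, h1, h2, fun hk => h3 (kltSys_smul hk hq), ?_, ?_, ?_⟩
  · intro BF hBF
    obtain ⟨_, ⟨B, hB, rfl⟩, hle⟩ := h4 BF hBF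
    refine ⟨B, hB, fun P T hPT => ?_⟩
    have h7 := hle P T hPT
    rw [Finsupp.smul_apply, smul_eq_mul] at h7
    push_cast
    rw [div_le_div_iff₀ hN0 (by positivity)]
    nlinarith
  · intro BY hBY
    obtain ⟨_, ⟨B, hB, rfl⟩, hle⟩ := h5 BY hBY
    refine ⟨B, hB, fun P Q hPQ => ?_⟩
    have h7 := hle P Q hPQ
    rw [Finsupp.smul_apply, smul_eq_mul] at h7
    push_cast
    rw [div_le_div_iff₀ hN0 (by positivity)]
    nlinarith
  · intro BF hBF BY hBY B hB D hD DF DY hDF hDY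
    refine h6 BF hBF BY hBY _ ⟨B, hB, rfl⟩ D ?_ DF DY hDF hDY
    intro P Q e he
    have h7 := hD P Q e he
    rw [smul_adj, Finsupp.smul_apply, h7, Finsupp.smul_apply, Finsupp.smul_apply, smul_eq_mul,
      smul_eq_mul, smul_eq_mul]
    push_cast
    ring

end Pool.Agent.Helper30.PV
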