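import Pool.Agent.Helper47.PQ.Box
import Pool.Agent.Helper47.PQ.HartogsT

set_option autoImplicit false
set_option linter.unusedSectionVars false

/-!
# PV-H1: sections of box divisors (Künneth)

`X = F × Y`, `D = pr₁* DF + pr₂* DY` (`IsBox DF DY D`).

`mul_mem_H0`: `a ∈ H⁰(F, DF)`, `b ∈ H⁰(Y, DY)`; then `a b ∈ H⁰(X, D)`.
PROOF. If `a = 0` or `b = 0` clear. `H0` is `sec`, use `mem_sec_of_ne`: for all
`P ∈ X.primeDivisors` show `0 ≤ P (a b) + D P`, `P (a b) = P a + P b`. By `IsProduct.trichotomy`: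
(1) `P` trivial on `M` and `K`: `P (a b) = 0` and `D P = 0` (`IsBox.dom`).
(2) `P` is the Gauss extension of `Q ∈ Y.primeDivisors` (`IsGauss M P Q`): `P a = 0`
(`IsGauss.apply_left`), `P b = Q b` (`apply_right`), `D P = DY Q` (`IsBox.gauss_right`).
(3) the same with the roles exchanged (`IsGauss K P T`).

`exists_expansion_H0`: every `z ∈ H⁰(X, D)` is a sum `∑ aᵢ bᵢ` with `aᵢ ∈ H⁰(F, DF)` linearly
independent over `k` and `bᵢ ∈ H⁰(Y, DY)` linearly independent over `k`.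
PROOF. `z = 0`: `n = 0`. For the prime divisors `P` trivial on `M` and `K` we have `D P = 0`, so
`0 ≤ P z`, and `mem_top_of` gives `z ∈ M K`. Take an expansion (`exists_expansion`, with
`A = ⊤`, `B = ⊤`). Let `Q ∈ Y.primeDivisors`. There is a Gauss extension `w` of `Q`
(`exists_gauss`, `isFrac_top`), it is a prime divisor of `X` (`gauss_mem`), so
`w.Ge (-(D w)) z` with `D w = DY Q` (`gauss_right`), and by the definition of `IsGauss` (the `aᵢ` are
linearly independent) `Q.Ge (-(DY Q)) (b i)` for all `i`. So `b i ∈ H⁰(Y, DY)`. The same with `F`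
(`IsProduct.swap`, `IsBox.swap`: the `bᵢ` are linearly independent, `w` with `IsGauss K w T`).
-/

namespace Pool.Agent.Helper30.PV

open Pool.Agent.Helper92.Weak Pool.Agent.Helper47.PQ

variable {k M K E : Type*} [Field k] [Field M] [Field K] [Field E]
  [Algebra k M] [Algebra k K] [Algebra k E] [Algebra M E] [Algebra K E]
  [IsScalarTower k M E] [IsScalarTower k K E] [IsAlgClosed k]

variable {F : ProjVar k M} {Y : ProjVar k K} {X : ProjVar k E}

private theorem kun_mem_H0 {L : Type*} [Field L] [Algebra k L] {Z : ProjVar k L} {D : Z.Div}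
    {z : L} : z ∈ Z.H0 D ↔ ∀ P : Z.primeDivisors, P.1.Ge (-(D P)) z := by
  unfold ProjVar.H0 sec
  rw [Submodule.mem_iInf]
  rfl

private theorem kun_ge_map {L : Type*} [Field L] [Algebra k L] [Algebra L E] {w : DVal k E}
    {v : DVal k L} {c : ℚ} {b : L} (h : w (algebraMap L E b) = v b) (hb : v.Ge c b) :
    w.Ge c (algebraMap L E b) := by
  rcases hb with hb | hb
  · left
    rw [hb, map_zero]
  · right
    rw [h]
    exact hb

theorem mul_mem_H0 (h : IsProduct F Y X) {DF : F.Div} {DY : Y.Div} {D : X.Div}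
    (hD : IsBox DF DY D) {a : M} {b : K} (ha : a ∈ F.H0 DF) (hb : b ∈ Y.H0 DY) :
    algebraMap M E a * algebraMap K E b ∈ X.H0 D := by
  rw [kun_mem_H0] at ha hb ⊢
  intro P
  rcases h.trichotomy P.2 with ⟨h1, h2⟩ | ⟨Q, hQ, hG⟩ | ⟨T, hT, hG⟩
  · have e1 : P.1.Ge 0 (algebraMap M E a) := Or.inr (by rw [h1 a]; simp)
    have e2 : P.1.Ge 0 (algebraMap K E b) := Or.inr (by rw [h2 b]; simp)
    have e3 := e1.mul e2
    rw [hD.dom P h1 h2]
    simpa using e3
  · have e1 : P.1.Ge 0 (algebraMap M E a) := Or.inr (by rw [hG.apply_left a]; simp)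
    have e2 : P.1.Ge (-(DY ⟨Q, hQ⟩)) (algebraMap K E b) :=
      kun_ge_map (hG.apply_right b) (hb ⟨Q, hQ⟩)
    have e3 := e1.mul e2
    rw [hD.gauss_right P ⟨Q, hQ⟩ hG]
    simpa using e3
  · have e1 : P.1.Ge 0 (algebraMap K E b) := Or.inr (by rw [hG.apply_left b]; simp)
    have e2 : P.1.Ge (-(DF ⟨T, hT⟩)) (algebraMap M E a) :=
      kun_ge_map (hG.apply_right a) (ha ⟨T, hT⟩)
    have e3 := e2.mul e1
    rw [hD.gauss_left P ⟨T, hT⟩ hG]
    simpa using e3

private theorem kun_half (h : IsProduct F Y X) {DF : F.Div} {DY : Y.Div} {D : X.Div}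
    (hD : IsBox DF DY D) {z : E} (hz : z ∈ X.H0 D) {n : ℕ} {a : Fin n → M} {b : Fin n → K}
    (hla : LinearIndependent k a)
    (hzs : z = ∑ i, algebraMap M E (a i) * algebraMap K E (b i)) (i : Fin n) :
    b i ∈ Y.H0 DY := by
  rw [kun_mem_H0] at hz ⊢
  intro Q
  obtain ⟨w, hw⟩ := exists_gauss h.disj h.isFrac_top Q.1
  have h1 := hz ⟨w, h.gauss_mem Q.2 hw⟩
  rw [hD.gauss_right ⟨w, h.gauss_mem Q.2 hw⟩ Q hw, hzs] at h1
  exact (hw n a hla b _).1 h1 i

theorem exists_expansion_H0 (h : IsProduct F Y X) {DF : F.Div} {DY : Y.Div} {D : X.Div}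
    (hD : IsBox DF DY D) {z : E} (hz : z ∈ X.H0 D) :
    ∃ (n : ℕ) (a : Fin n → M) (b : Fin n → K), (∀ i, a i ∈ F.H0 DF) ∧ (∀ i, b i ∈ Y.H0 DY) ∧
      LinearIndependent k a ∧ LinearIndependent k b ∧
      z = ∑ i, algebraMap M E (a i) * algebraMap K E (b i) := by
  have htop : z ∈ prodRing E (⊤ : Subalgebra k M) (⊤ : Subalgebra k K) := by
    refine h.mem_top_of fun P hP h1 h2 => ?_
    have h3 := kun_mem_H0.1 hz ⟨P, hP⟩
    rw [hD.dom ⟨P, hP⟩ h1 h2, neg_zero] at h3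
    rcases h3 with h3 | h3
    · rw [h3, DVal.map_zero]
    · exact_mod_cast h3
  obtain ⟨n, a, b, -, -, hla, hlb, hzs⟩ := exists_expansion htop
  refine ⟨n, a, b, fun i => ?_, fun i => kun_half h hD hz hla hzs i, hla, hlb, hzs⟩
  refine kun_half h.swap hD.swap hz hlb ?_ i
  rw [hzs]
  exact Finset.sum_congr rfl fun j _ => mul_comm _ _

end Pool.Agent.Helper30.PV
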