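import Pool.Agent.Helper30.PV.Kun

set_option autoImplicit false
set_option linter.unusedSectionVars false

/-!
# PV-H2: the dimension of the space of sections of a box divisor

`sdim_box`: `dim H⁰(X, D) = dim H⁰(F, DF) · dim H⁰(Y, DY)` in `ℕ ∪ {∞}`, for `D = DF ⊞ DY` (rational
coefficients are allowed).

PROOF. If `(e_i)` is a basis of `H⁰(F, DF)` and `(f_j)` a basis of `H⁰(Y, DY)`
then the `e_i f_j` are a basis of `H⁰(X, D)`: independent by `h.disj` (`LinDisj` is for families
indexed by `Fin n`; a linear relation is finite), spanning by `exists_expansion_H0`. Then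
`Module.rank` is the product (universes: the spaces live in different universes, use
`Cardinal.lift`), and `Cardinal.toENat` is multiplicative (`map_mul`, `Cardinal.toENat_lift`).

`h0_box`: the same for `h⁰`. PROOF. If `D` is integral then so are `DF` and `DY` and conversely
(`IsBox.isInt_iff`); if it is not, both sides are `0` (`ProjVar.h0`, `if_neg`). In the
integral case `ProjVar.h0_of_int` and `sdim_box`.

(In the non-integral case one of the factors is `0`.)
-/

namespace Pool.Agent.Helper30.PV

open Pool.Agent.Helper92.Weak Pool.Agent.Helper47.PQ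

variable {k M K E : Type*} [Field k] [Field M] [Field K] [Field E]
  [Algebra k M] [Algebra k K] [Algebra k E] [Algebra M E] [Algebra K E]
  [IsScalarTower k M E] [IsScalarTower k K E] [IsAlgClosed k]

variable {F : ProjVar k M} {Y : ProjVar k K} {X : ProjVar k E}

/-- Linearly independent elements of `M` over `k` are linearly independent over `K`. -/
theorem linIndep_over (h : LinDisj k M K E) {ι : Type*} {a : ι → M}
    (ha : LinearIndependent k a) : LinearIndependent K (fun i => algebraMap M E (a i)) := by
  rw [linearIndependent_iff']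
  intro s g hg i hi
  let e := s.equivFin
  have hs : ∑ j : Fin s.card, algebraMap M E (a (e.symm j : ι)) *
      algebraMap K E (g (e.symm j : ι)) = 0 := by
    rw [Equiv.sum_comp e.symm (fun x : s => algebraMap M E (a (x : ι)) *
      algebraMap K E (g (x : ι))), ← hg, ← Finset.sum_coe_sort s]
    refine Finset.sum_congr rfl fun j _ => ?_
    rw [Algebra.smul_def, mul_comm]
  have hind : LinearIndependent k (fun j : Fin s.card => a (e.symm j : ι)) :=
    ha.comp (fun j : Fin s.card => (e.symm j : ι))
      (Subtype.val_injective.comp e.symm.injective)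
  have h1 := h s.card (fun j => a (e.symm j : ι)) hind (fun j => g (e.symm j : ι)) hs (e ⟨i, hi⟩)
  simpa using h1

/-- The elements of a basis of a subspace of `L` span it. -/
theorem span_basis {L : Type*} [Field L] [Algebra k L] (W : Submodule k L) {ι : Type*}
    (b : Module.Basis ι k W) : Submodule.span k (Set.range fun i => (b i : L)) = W := by
  have h1 : (Set.range fun i => (b i : L)) = W.subtype '' (Set.range b) := by
    rw [← Set.range_comp]
    rfl
  rw [h1, ← Submodule.map_span, b.span_eq, Submodule.map_top, Submodule.range_subtype]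

theorem sdim_box (h : IsProduct F Y X) {DF : F.Div} {DY : Y.Div} {D : X.Div}
    (hD : IsBox DF DY D) : sdim (X.H0 D) = sdim (F.H0 DF) * sdim (Y.H0 DY) := by
  classical
  let bF := Module.Basis.ofVectorSpace k (F.H0 DF)
  let bY := Module.Basis.ofVectorSpace k (Y.H0 DY)
  have hF : LinearIndependent k (fun i => (bF i : M)) :=
    bF.linearIndependent.map' (F.H0 DF).subtype (Submodule.ker_subtype _)
  have hY : LinearIndependent k (fun i => (bY i : K)) :=
    bY.linearIndependent.map' (Y.H0 DY).subtype (Submodule.ker_subtype _)
  have hc := linearIndependent_smul hY (linIndep_over h.disj hF)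
  set c := fun p : (Module.Basis.ofVectorSpaceIndex k (Y.H0 DY)) ×
    (Module.Basis.ofVectorSpaceIndex k (F.H0 DF)) =>
      (bY p.1 : K) • algebraMap M E (bF p.2 : M) with hcdef
  have hmem : ∀ a ∈ F.H0 DF, ∀ b ∈ Y.H0 DY,
      algebraMap M E a * algebraMap K E b ∈ Submodule.span k (Set.range c) := by
    intro a ha
    rw [← span_basis (F.H0 DF) bF] at ha
    induction ha using Submodule.span_induction with
    | mem a ha =>
      obtain ⟨i, rfl⟩ := ha
      intro b hb
      rw [← span_basis (Y.H0 DY) bY] at hb
      induction hb using Submodule.span_induction with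
      | mem b hb =>
        obtain ⟨j, rfl⟩ := hb
        apply Submodule.subset_span
        refine ⟨(j, i), ?_⟩
        rw [hcdef]
        change (bY j : K) • algebraMap M E (bF i : M) = _
        rw [Algebra.smul_def, mul_comm]
      | zero => rw [map_zero, mul_zero]; exact zero_mem _
      | add x y _ _ hx hy => rw [map_add, mul_add]; exact add_mem hx hy
      | smul r x _ hx =>
        have e1 : algebraMap K E (r • x) = r • algebraMap K E x := by
          rw [Algebra.smul_def, map_mul, ← IsScalarTower.algebraMap_apply, ← Algebra.smul_def]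
        rw [e1, mul_smul_comm]
        exact Submodule.smul_mem _ _ hx
    | zero => intro b _; rw [map_zero, zero_mul]; exact zero_mem _
    | add x y _ _ hx hy =>
      intro b hb
      rw [map_add, add_mul]
      exact add_mem (hx b hb) (hy b hb)
    | smul r x _ hx =>
      intro b hb
      have e1 : algebraMap M E (r • x) = r • algebraMap M E x := by
        rw [Algebra.smul_def, map_mul, ← IsScalarTower.algebraMap_apply, ← Algebra.smul_def]
      rw [e1, smul_mul_assoc]
      exact Submodule.smul_mem _ _ (hx b hb)
  have hspan : Submodule.span k (Set.range c) = X.H0 D := by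
    apply le_antisymm
    · rw [Submodule.span_le]
      rintro _ ⟨p, rfl⟩
      have h1 := mul_mem_H0 h hD (bF p.2).2 (bY p.1).2
      rw [hcdef]
      change (bY p.1 : K) • algebraMap M E (bF p.2 : M) ∈ X.H0 D
      rw [Algebra.smul_def, mul_comm]
      exact h1
    · intro z hz
      obtain ⟨n, a, b, ha, hb, _, _, rfl⟩ := exists_expansion_H0 h hD hz
      exact sum_mem fun i _ => hmem _ (ha i) _ (hb i)
  have hrank : Module.rank k (X.H0 D) = Cardinal.mk (Set.range c) := by
    rw [← hspan]
    exact rank_span hc
  have h1 := Cardinal.mk_range_eq_of_injective hc.injective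
  have h2 : Cardinal.toENat (Cardinal.mk (Set.range c)) =
      Cardinal.toENat (Cardinal.mk ((Module.Basis.ofVectorSpaceIndex k (Y.H0 DY)) ×
        (Module.Basis.ofVectorSpaceIndex k (F.H0 DF)))) := by
    have h3 := congrArg Cardinal.toENat h1
    rwa [Cardinal.toENat_lift, Cardinal.toENat_lift] at h3
  unfold sdim
  rw [hrank, h2, Cardinal.mk_prod, map_mul, Cardinal.toENat_lift, Cardinal.toENat_lift,
    ← bF.mk_eq_rank'', ← bY.mk_eq_rank'', mul_comm]

theorem h0_box (h : IsProduct F Y X) {DF : F.Div} {DY : Y.Div} {D : X.Div}
    (hD : IsBox DF DY D) : X.h0 D = F.h0 DF * Y.h0 DY := by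
  by_cases hX : X.IsInt D
  · obtain ⟨hF, hY⟩ := (hD.isInt_iff h).1 hX
    rw [X.h0_of_int hX, F.h0_of_int hF, Y.h0_of_int hY, sdim_box h hD]
  · have h1 : ¬ (F.IsInt DF ∧ Y.IsInt DY) := fun h2 => hX ((hD.isInt_iff h).2 h2)
    have h2 : X.h0 D = 0 := by
      unfold ProjVar.h0
      rw [if_neg hX]
    rw [h2]
    by_cases hF : F.IsInt DF
    · have hY : ¬ Y.IsInt DY := fun h3 => h1 ⟨hF, h3⟩
      have h3 : Y.h0 DY = 0 := by
        unfold ProjVar.h0
        rw [if_neg hY]
      rw [h3, mul_zero]
    · have h3 : F.h0 DF = 0 := by
        unfold ProjVar.h0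
        rw [if_neg hF]
      rw [h3, zero_mul]

end Pool.Agent.Helper30.PV
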