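import Pool.Agent.Helper30.PV.LCSide
import Pool.Agent.Helper47.PQ.FMain

set_option autoImplicit false
set_option linter.unusedSectionVars false

/-!
# PV-L2: log canonical systems on a product give log canonical systems on both factors

PROOF. Take `g₀`, `C₀` from `IsProduct.exists_boxForm`. One `B₁ ∈ 𝔅` is `D₀ + div g` with
`D₀ = DF ⊞ DY`, `DF`, `DY` integral. Every `B ∈ 𝔅` is `B₁ + div ψ` (`hlc.linEquiv`), so
`B = D₀ + div ψ_B` with `ψ_B = g ψ ≠ 0`, and `B ≥ 0` (`hlc.nonneg`) says `ψ_B ∈ H⁰(X, D₀)`. Choose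
expansions `ψ_B = ∑ a_{B,i} b_{B,i}` by `exists_expansion_H0`, with `a_{B,i} ∈ H⁰(F, DF)`,
`b_{B,i} ∈ H⁰(Y, DY)`, both linearly independent over `k` (for `B ∉ 𝔅` take junk, `n B = 0`). This
gives `S : SideData F Y X ...`, and, with the roles of `F` and `Y` exchanged (`IsProduct.swap`,
`IsBox.swap`, `Finset.sum_congr` + `mul_comm`), `S' : SideData Y F X ...`. Let
`𝔜 = S.sys`, `𝔉 = S'.sys`; `lcSys_right`, `kltSys_right`, `le_right` for both. Finally for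
`BF = DF + div a ∈ 𝔉`, `BY = DY + div b ∈ 𝔜`, `B = D₀ + div ψ_B ∈ 𝔅`:
`N C + B = (N C₀ + D₀ + div (a b)) + div (g₀ ^ N ψ_B (a b)⁻¹)` and
`N C₀ + D₀ + div (a b)` is the box of `N CF + BF` and `N CY + BY` (`IsProduct.prin_box`,
`IsBox.add`, `IsBox.smul`; `prin_mul`, `prin_pow`, `prin_inv`).
-/

namespace Pool.Agent.Helper30.PV

open Pool.Agent.Helper92.Weak Pool.Agent.Helper47.PQ

variable {k M K E : Type*} [Field k] [Field M] [Field K] [Field E]
  [Algebra k M] [Algebra k K] [Algebra k E] [Algebra M E] [Algebra K E]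
  [IsScalarTower k M E] [IsScalarTower k K E] [IsAlgClosed k] [CharZero k]

variable {F : ProjVar k M} {Y : ProjVar k K} {X : ProjVar k E}

/-- The divisor `D` on the product `X` of `F` and `Y` is linearly equivalent to the sum of the pull
backs of integral divisors on the factors. -/
def IsDecomposable (F : ProjVar k M) (Y : ProjVar k K) (D : X.Div) : Prop :=
  ∃ (g : E) (DF : F.Div) (DY : Y.Div) (D₀ : X.Div), g ≠ 0 ∧ F.IsInt DF ∧ Y.IsInt DY ∧
    IsBox DF DY D₀ ∧ D = D₀ + X.prin g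

theorem exists_lcSys (h : IsProduct F Y X) {m n : ℕ} (hm : Algebra.trdeg k M = m)
    (hn : Algebra.trdeg k K = n) {ωF : Form k M m} {CF : F.Div} (hF : F.IsDivisorOf ωF CF)
    {ωY : Form k K n} {CY : Y.Div} (hY : Y.IsDivisorOf ωY CY) {ω : Form k E (m + n)} {C : X.Div}
    (hX : X.IsDivisorOf ω C) {N : ℕ} {𝔅 : Set X.Div} (hlc : LCSys X ω C N 𝔅) {B₁ : X.Div}
    (hB₁ : B₁ ∈ 𝔅) (hdec : IsDecomposable F Y B₁) :
    ∃ (𝔉 : Set F.Div) (𝔜 : Set Y.Div), LCSys F ωF CF N 𝔉 ∧ LCSys Y ωY CY N 𝔜 ∧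
      (IsKltSys X ω C N 𝔅 → IsKltSys F ωF CF N 𝔉 ∧ IsKltSys Y ωY CY N 𝔜) ∧
      (∀ BF ∈ 𝔉, ∃ B ∈ 𝔅, ∀ (P : X.primeDivisors) (T : F.primeDivisors),
        LiesOver P.1 T.1 1 → B P ≤ BF T) ∧
      (∀ BY ∈ 𝔜, ∃ B ∈ 𝔅, ∀ (P : X.primeDivisors) (Q : Y.primeDivisors),
        LiesOver P.1 Q.1 1 → B P ≤ BY Q) ∧
      ∀ BF ∈ 𝔉, ∀ BY ∈ 𝔜, ∀ B ∈ 𝔅, ∃ (D : X.Div) (ψ : E), ψ ≠ 0 ∧
        IsBox ((N : ℚ) • CF + BF) ((N : ℚ) • CY + BY) D ∧ (N : ℚ) • C + B = D + X.prin ψ := by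
  classical
  obtain ⟨g₀, C₀, hg₀, hC₀, hC, hR, hL⟩ := h.exists_boxForm hm hn hF hY hX
  obtain ⟨g, DF, DY, D₀, hg, hDF, hDY, hD₀, hB₁eq⟩ := hdec
  have hex : ∀ B : X.Div, ∃ (ψ : E) (r : ℕ) (a : Fin r → M) (b : Fin r → K), B ∈ 𝔅 →
      (ψ ≠ 0 ∧ B = D₀ + X.prin ψ ∧ ψ = ∑ i, algebraMap M E (a i) * algebraMap K E (b i) ∧
        LinearIndependent k a ∧ LinearIndependent k b ∧ (∀ i, a i ∈ F.H0 DF) ∧
        ∀ i, b i ∈ Y.H0 DY) := by
    intro B
    by_cases hB : B ∈ 𝔅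
    · obtain ⟨ψ, hψ, hψB⟩ := hlc.linEquiv B₁ hB₁ B hB
      have h1 : B = D₀ + X.prin (g * ψ) := by
        ext P
        rw [hψB P, hB₁eq, Finsupp.add_apply, Finsupp.add_apply, ProjVar.prin_apply,
          ProjVar.prin_apply, P.1.map_mul hg hψ]
        push_cast
        ring
      have h2 : g * ψ ∈ X.H0 D₀ := by
        unfold ProjVar.H0 sec
        rw [Submodule.mem_iInf]
        intro P
        right
        have h3 := hlc.nonneg B hB P
        rw [h1, Finsupp.add_apply, ProjVar.prin_apply] at h3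
        linarith
      obtain ⟨r, a, b, ha, hb, hla, hlb, hab⟩ := exists_expansion_H0 h hD₀ h2
      exact ⟨g * ψ, r, a, b, fun _ => ⟨mul_ne_zero hg hψ, h1, hab, hla, hlb, ha, hb⟩⟩
    · exact ⟨0, 0, fun i => i.elim0, fun i => i.elim0, fun h0 => absurd h0 hB⟩
  choose ψ r a b hψ using hex
  let S : SideData F Y X N 𝔅 C CF CY DF DY :=
    { prod := h
      C₀ := C₀
      g₀ := g₀
      g₀_ne := hg₀
      C₀_box := hC₀
      C_eq := hC
      D₀ := D₀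
      D₀_box := hD₀
      DY_int := hDY
      ψ := ψ
      n := r
      a := a
      b := b
      ψ_ne := fun B hB => (hψ B hB).1
      B_eq := fun B hB => (hψ B hB).2.1
      ψ_eq := fun B hB => (hψ B hB).2.2.1
      a_li := fun B hB => (hψ B hB).2.2.2.1
      b_li := fun B hB => (hψ B hB).2.2.2.2.1
      b_mem := fun B hB => (hψ B hB).2.2.2.2.2.2 }
  let S' : SideData Y F X N 𝔅 C CY CF DY DF :=
    { prod := h.swap
      C₀ := C₀
      g₀ := g₀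
      g₀_ne := hg₀
      C₀_box := hC₀.swap
      C_eq := hC
      D₀ := D₀
      D₀_box := hD₀.swap
      DY_int := hDF
      ψ := ψ
      n := r
      a := b
      b := a
      ψ_ne := fun B hB => (hψ B hB).1
      B_eq := fun B hB => (hψ B hB).2.1
      ψ_eq := fun B hB => (hψ B hB).2.2.1.trans
        (Finset.sum_congr rfl fun i _ => mul_comm _ _)
      a_li := fun B hB => (hψ B hB).2.2.2.2.1
      b_li := fun B hB => (hψ B hB).2.2.2.1
      b_mem := fun B hB => (hψ B hB).2.2.2.2.2.1 }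
  refine ⟨S'.sys, S.sys, S'.lcSys_right hlc hL, S.lcSys_right hlc hR,
    fun hklt => ⟨S'.kltSys_right hklt hL, S.kltSys_right hklt hR⟩,
    fun BF hBF => S'.le_right hBF, fun BY hBY => S.le_right hBY, ?_⟩
  rintro BF ⟨B', hB', i, rfl⟩ BY ⟨B'', hB'', j, rfl⟩ B hB
  have ha : a B' i ≠ 0 := (hψ B' hB').2.2.2.1.ne_zero i
  have hb : b B'' j ≠ 0 := (hψ B'' hB'').2.2.2.2.1.ne_zero j
  have hab : algebraMap M E (a B' i) * algebraMap K E (b B'' j) ≠ 0 :=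
    mul_ne_zero ((map_ne_zero _).2 ha) ((map_ne_zero _).2 hb)
  have hψB := (hψ B hB).1
  refine ⟨(N : ℚ) • C₀ + (D₀ + X.prin (algebraMap M E (a B' i) * algebraMap K E (b B'' j))),
    g₀ ^ N * ψ B * (algebraMap M E (a B' i) * algebraMap K E (b B'' j))⁻¹,
    mul_ne_zero (mul_ne_zero (pow_ne_zero _ hg₀) hψB) (inv_ne_zero hab), ?_, ?_⟩
  · exact (hC₀.smul (N : ℚ)).add (hD₀.add (h.prin_box ha hb))
  · have h1 : (N : ℚ) • C + B = (N : ℚ) • (C₀ + X.prin g₀) + (D₀ + X.prin (ψ B)) := by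
      rw [← hC, ← (hψ B hB).2.1]
    rw [h1, ProjVar.prin_mul X (mul_ne_zero (pow_ne_zero _ hg₀) hψB) (inv_ne_zero hab),
      ProjVar.prin_mul X (pow_ne_zero _ hg₀) hψB, ProjVar.prin_pow, ProjVar.prin_inv, smul_add]
    abel

end Pool.Agent.Helper30.PV
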