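import Pool.Agent.Helper30.PV.Kun
import Pool.Agent.Helper47.PQ.Cartier
import Pool.Agent.Helper47.PQ.GaussDiv

set_option autoImplicit false
set_option linter.unusedSectionVars false

/-!
# PV-L1: log canonical systems on a product give log canonical systems on a factor

`X = F × Y`, `ω` a form of top degree on `X` with divisor `C = C₀ + div g₀`, `C₀ = CF ⊞ CY`, where
`CY` is the divisor of the form `ωY` on `Y`, and `ord_w ω = ord_v ωY + w g₀` for Gauss extensions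
`w` of valuations `v` of `K` (`IsProduct.exists_boxForm`). `(X, (1/N) 𝔅)` is log canonical, and all
`B ∈ 𝔅` are `B = D₀ + div ψ_B` with `D₀ = DF ⊞ DY`, `ψ_B = ∑ᵢ a_{B,i} b_{B,i}`, `a_{B,i} ∈ M` linearly
independent over `k`, `b_{B,i} ∈ H⁰(Y, DY)` linearly independent over `k`. Then `(Y, (1/N) 𝔜)` is
log canonical for `𝔜 = {DY + div b_{B,i}}`, klt if `(X, (1/N) 𝔅)` is klt.

PROOF of `lcSys_right`. `pos`: `hlc.pos`. `finite`: `𝔅` is finite and each `Fin (n B)` is finite.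
`nonempty`: take `B ∈ 𝔅`; `ψ_B ≠ 0`, so `n B ≠ 0`. `isInt`: `DY` and principal divisors are
integral. `nonneg`: `b ∈ H⁰(Y, DY)`, `b ≠ 0` (linear independence) gives `Q b + DY Q ≥ 0`
(`mem_sec_of_ne`). `linEquiv`: the quotient of two of the `b`'s. `qcartier`: `N C + B` is
`ℚ`-Cartier; it is `N C₀ + D₀ + div (g₀ ^ N ψ_B)`, and principal divisors are `ℚ`-Cartier (adding
one: multiply the local equation of the multiple `m` by `(g₀ ^ N ψ_B) ^ (-m)`), so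
`N C₀ + D₀ = (N CF + DF) ⊞ (N CY + DY)` is `ℚ`-Cartier, hence so is `N CY + DY`
(`IsProduct.qcartier_right`) and `N CY + (DY + div b)`.
`lc`: let `v` be divisorial, `v.HasOrd ωY a`, `w` its Gauss extension (`exists_gauss`,
`h.isFrac_top`); `w` is divisorial (`isDivisorial_gauss`; for `M` take `s` = the set of the
`x_j / x_0` of the chart `0` of `F`, `chart_isFrac`). `w.HasOrd ω (a + w g₀)` by `hord`. By
`hlc.lc` there is `B ∈ 𝔅` with `c ≤ N (1 + a + w g₀)` for every value `c` of `N C + B` at `w`. By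
`IsGauss.eq_min` there is `i` with `w ψ_B = v (b_{B,i})`. Put `B' = DY + div b_{B,i}`. Suppose that
`N CY + B'` has the value `c` at `v`. Then `N CY + DY` has the value `c - v b_{B,i}` at `v`
(`IsValue.add` with `IsValue.prin` for `b⁻¹`), so `N C₀ + D₀` has the value `c - v b_{B,i}` at
`w` (`IsProduct.isValue_right`), and `N C + B = N C₀ + D₀ + div (g₀ ^ N ψ_B)` has the value
`c - v b_{B,i} + N w g₀ + w ψ_B = c + N w g₀` at `w`. So `c + N w g₀ ≤ N (1 + a + w g₀)`, i.e.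
`c ≤ N (1 + a)`.
`kltSys_right` is the same with strict inequalities.
`le_right`: `w ψ_B ≤ v (b_{B,i})` for the Gauss extension `P = w` of `v = Q`
(`IsGauss.eq_min`), so `B P = D₀ P + P ψ_B = DY Q + P ψ_B ≤ DY Q + Q b_{B,i}`
(`IsBox.gauss_right`; if `LiesOver P Q 1` then `P` is the Gauss extension of `Q`: `trichotomy`).
-/

namespace Pool.Agent.Helper30.PV

open Pool.Agent.Helper92.Weak Pool.Agent.Helper47.PQ

/-- The system `(X, (1/N) 𝔅)` is Kawamata log terminal, `C` the divisor of the form `ω`: for every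
divisorial valuation `v`, some `B ∈ 𝔅` satisfies `v (N C + B) < N (1 + ord_v ω)`. -/
def IsKltSys {k L : Type*} [Field k] [Field L] [Algebra k L] (X : ProjVar k L) {n : ℕ}
    (ω : Form k L n) (C : X.Div) (N : ℕ) (𝔅 : Set X.Div) : Prop :=
  ∀ v : DVal k L, v.IsDivisorial → ∀ a : ℤ, v.HasOrd ω a →
    ∃ B ∈ 𝔅, ∀ c, X.IsValue v ((N : ℚ) • C + B) c → c < N * (1 + a)

variable {k M K E : Type*} [Field k] [Field M] [Field K] [Field E]
  [Algebra k M] [Algebra k K] [Algebra k E] [Algebra M E] [Algebra K E]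
  [IsScalarTower k M E] [IsScalarTower k K E] [IsAlgClosed k]

variable {F : ProjVar k M} {Y : ProjVar k K} {X : ProjVar k E}

/-- The data of the proof. -/
structure SideData (F : ProjVar k M) (Y : ProjVar k K) (X : ProjVar k E) (N : ℕ)
    (𝔅 : Set X.Div) (C : X.Div) (CF : F.Div) (CY : Y.Div) (DF : F.Div) (DY : Y.Div) where
  prod : IsProduct F Y X
  C₀ : X.Div
  g₀ : E
  g₀_ne : g₀ ≠ 0
  C₀_box : IsBox CF CY C₀
  C_eq : C = C₀ + X.prin g₀
  D₀ : X.Div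
  D₀_box : IsBox DF DY D₀
  DY_int : Y.IsInt DY
  ψ : X.Div → E
  n : X.Div → ℕ
  a : ∀ B, Fin (n B) → M
  b : ∀ B, Fin (n B) → K
  ψ_ne : ∀ B ∈ 𝔅, ψ B ≠ 0
  B_eq : ∀ B ∈ 𝔅, B = D₀ + X.prin (ψ B)
  ψ_eq : ∀ B ∈ 𝔅, ψ B = ∑ i, algebraMap M E (a B i) * algebraMap K E (b B i)
  a_li : ∀ B ∈ 𝔅, LinearIndependent k (a B)
  b_li : ∀ B ∈ 𝔅, LinearIndependent k (b B)
  b_mem : ∀ B ∈ 𝔅, ∀ i, b B i ∈ Y.H0 DY

/-- The system on `Y`. -/
def SideData.sys {N : ℕ} {𝔅 : Set X.Div} {C : X.Div} {CF : F.Div} {CY : Y.Div} {DF : F.Div}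
    {DY : Y.Div} (S : SideData F Y X N 𝔅 C CF CY DF DY) : Set Y.Div :=
  {B' | ∃ B ∈ 𝔅, ∃ i : Fin (S.n B), B' = DY + Y.prin (S.b B i)}

variable {N : ℕ} {𝔅 : Set X.Div} {C : X.Div} {CF : F.Div} {CY : Y.Div} {DF : F.Div}
    {DY : Y.Div} {n : ℕ} {ω : Form k E n} {nY : ℕ} {ωY : Form k K nY}

private theorem pvl_b_ne (S : SideData F Y X N 𝔅 C CF CY DF DY) {B : X.Div} (hB : B ∈ 𝔅)
    (i : Fin (S.n B)) : S.b B i ≠ 0 := (S.b_li B hB).ne_zero i

private theorem pvl_exists_ne (S : SideData F Y X N 𝔅 C CF CY DF DY) {B : X.Div} (hB : B ∈ 𝔅) :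
    ∃ i, S.b B i ≠ 0 := by
  by_contra hcon
  push Not at hcon
  apply S.ψ_ne B hB
  rw [S.ψ_eq B hB]
  exact Finset.sum_eq_zero fun i _ => by rw [hcon i, map_zero, mul_zero]

/-- the value on `X` -/
private theorem pvl_value (S : SideData F Y X N 𝔅 C CF CY DF DY) {B : X.Div} (hB : B ∈ 𝔅)
    {v : DVal k K} {w : DVal k E} (hw : IsGauss M w v) (i : Fin (S.n B))
    (hi : w (S.ψ B) = v (S.b B i)) {c : ℚ}
    (hc : Y.IsValue v ((N : ℚ) • CY + (DY + Y.prin (S.b B i))) c) :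
    X.IsValue w ((N : ℚ) • C + B) (c + N * w S.g₀) := by
  have hb := pvl_b_ne S hB i
  have h1 : Y.IsValue v ((N : ℚ) • CY + DY) (c - v (S.b B i)) := by
    have h2 := hc.add (ProjVar.IsValue.prin (X := Y) (v := v) (inv_ne_zero hb))
    rw [ProjVar.prin_inv, DVal.map_inv] at h2
    have h3 : (N : ℚ) • CY + (DY + Y.prin (S.b B i)) + -Y.prin (S.b B i) = (N : ℚ) • CY + DY := by
      abel
    rw [h3] at h2
    have h4 : c + ((-v (S.b B i) : ℤ) : ℚ) = c - v (S.b B i) := by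
      push_cast
      ring
    rwa [h4] at h2
  have hbox : IsBox ((N : ℚ) • CF + DF) ((N : ℚ) • CY + DY) ((N : ℚ) • S.C₀ + S.D₀) :=
    (S.C₀_box.smul (N : ℚ)).add S.D₀_box
  have h5 := S.prod.isValue_right hbox hw h1
  have h6 := (h5.add ((ProjVar.IsValue.prin (X := X) (v := w) S.g₀_ne).smul (N : ℚ))).add
    (ProjVar.IsValue.prin (X := X) (v := w) (S.ψ_ne B hB))
  have h7 : (N : ℚ) • S.C₀ + S.D₀ + (N : ℚ) • X.prin S.g₀ + X.prin (S.ψ B) =
      (N : ℚ) • C + B := by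
    conv_rhs => rw [S.C_eq, S.B_eq B hB]
    rw [smul_add]
    abel
  rw [h7, hi] at h6
  have h8 : c - v (S.b B i) + N * w S.g₀ + v (S.b B i) = c + N * w S.g₀ := by ring
  rwa [h8] at h6

private theorem pvl_min (S : SideData F Y X N 𝔅 C CF CY DF DY) {B : X.Div} (hB : B ∈ 𝔅)
    {v : DVal k K} {w : DVal k E} (hw : IsGauss M w v) :
    (∃ i, w (S.ψ B) = v (S.b B i)) ∧ ∀ i, w (S.ψ B) ≤ v (S.b B i) := by
  obtain ⟨-, ⟨i, -, hi⟩, h2⟩ := hw.eq_min S.prod.disj (S.a B) (S.a_li B hB) (S.b B)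
    (pvl_exists_ne S hB)
  rw [← S.ψ_eq B hB] at hi h2
  exact ⟨⟨i, hi⟩, fun j => h2 j (pvl_b_ne S hB j)⟩

/-- the Gauss extension of a divisorial valuation -/
private theorem pvl_gauss (S : SideData F Y X N 𝔅 C CF CY DF DY) {v : DVal k K}
    (hv : v.IsDivisorial) : ∃ w : DVal k E, IsGauss M w v ∧ w.IsDivisorial := by
  classical
  obtain ⟨w, hw⟩ := exists_gauss S.prod.disj S.prod.isFrac_top v
  refine ⟨w, hw, isDivisorial_gauss S.prod.disj S.prod.isFrac_top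
    (Finset.univ.image fun j => F.x j / F.x 0) ?_ hw hv⟩
  have h1 : ((Finset.univ.image fun j => F.x j / F.x 0 : Finset M) : Set M) =
      Set.range fun j => F.x j / F.x 0 := by
    rw [Finset.coe_image, Finset.coe_univ, Set.image_univ]
  rw [h1]
  exact F.chart_isFrac 0

private theorem pvl_qc_add_prin {L : Type*} [Field L] [Algebra k L] {Z : ProjVar k L} {D : Z.Div}
    (hD : Z.IsQCartier D) {g : L} (hg : g ≠ 0) : Z.IsQCartier (D + Z.prin g) := by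
  intro R hR
  obtain ⟨m, hm, f, hf0, hf⟩ := hD R hR
  refine ⟨m, hm, f * g ^ m, mul_ne_zero hf0 (pow_ne_zero _ hg), fun P hP => ?_⟩
  rw [DVal.map_mul _ hf0 (pow_ne_zero _ hg), DVal.map_pow]
  have h1 := hf P hP
  rw [Finsupp.smul_apply, smul_eq_mul] at h1 ⊢
  rw [Finsupp.add_apply, ProjVar.prin_apply]
  push_cast
  rw [h1]
  ring

/-- the log canonical inequality -/
private theorem pvl_lc (S : SideData F Y X N 𝔅 C CF CY DF DY) {B : X.Div} (hB : B ∈ 𝔅)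
    {v : DVal k K} {w : DVal k E} (hw : IsGauss M w v) :
    ∃ B' ∈ S.sys, ∀ c, Y.IsValue v ((N : ℚ) • CY + B') c →
      X.IsValue w ((N : ℚ) • C + B) (c + N * w S.g₀) := by
  obtain ⟨⟨i, hi⟩, -⟩ := pvl_min S hB hw
  exact ⟨_, ⟨B, hB, i, rfl⟩, fun c hc => pvl_value S hB hw i hi hc⟩

theorem SideData.lcSys_right (S : SideData F Y X N 𝔅 C CF CY DF DY) (hlc : LCSys X ω C N 𝔅)
    (hord : ∀ (v : DVal k K) (w : DVal k E) (a : ℤ), IsGauss M w v → v.HasOrd ωY a →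
      w.HasOrd ω (a + w S.g₀)) : LCSys Y ωY CY N S.sys := by
  refine ⟨hlc.pos, ?_, ?_, ?_, ?_, ?_, ?_, ?_⟩
  · have h1 : S.sys = ⋃ B ∈ 𝔅, Set.range fun i : Fin (S.n B) => DY + Y.prin (S.b B i) := by
      ext B'
      simp only [SideData.sys, Set.mem_ofPred_eq, Set.mem_iUnion, Set.mem_range, exists_prop]
      constructor
      · rintro ⟨B, hB, i, rfl⟩
        exact ⟨B, hB, i, rfl⟩
      · rintro ⟨B, hB, i, rfl⟩
        exact ⟨B, hB, i, rfl⟩
    rw [h1]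
    exact hlc.finite.biUnion fun B _ => Set.finite_range _
  · obtain ⟨B, hB⟩ := hlc.nonempty
    obtain ⟨i, -⟩ := pvl_exists_ne S hB
    exact ⟨_, B, hB, i, rfl⟩
  · rintro _ ⟨B, hB, i, rfl⟩ P
    obtain ⟨z, hz⟩ := S.DY_int P
    refine ⟨z + P.1 (S.b B i), ?_⟩
    rw [Finsupp.add_apply, hz, ProjVar.prin_apply]
    push_cast
    rfl
  · rintro _ ⟨B, hB, i, rfl⟩ P
    have h1 := (mem_sec_of_ne (pvl_b_ne S hB i)).1 (S.b_mem B hB i) P
    rw [Finsupp.add_apply, ProjVar.prin_apply, add_comm]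
    exact h1
  · rintro _ ⟨B, hB, i, rfl⟩ _ ⟨B', hB', i', rfl⟩
    refine ⟨S.b B' i' / S.b B i, div_ne_zero (pvl_b_ne S hB' i') (pvl_b_ne S hB i), fun P => ?_⟩
    rw [DVal.map_div _ (pvl_b_ne S hB' i') (pvl_b_ne S hB i), Finsupp.add_apply, Finsupp.add_apply,
      ProjVar.prin_apply, ProjVar.prin_apply]
    push_cast
    ring
  · rintro _ ⟨B, hB, i, rfl⟩
    have h1 := hlc.qcartier B hB
    have hg : (S.g₀ ^ N * S.ψ B)⁻¹ ≠ 0 :=
      inv_ne_zero (mul_ne_zero (pow_ne_zero _ S.g₀_ne) (S.ψ_ne B hB))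
    have h2 := pvl_qc_add_prin h1 hg
    have h3 : (N : ℚ) • C + B + X.prin (S.g₀ ^ N * S.ψ B)⁻¹ = (N : ℚ) • S.C₀ + S.D₀ := by
      rw [ProjVar.prin_inv, ProjVar.prin_mul _ (pow_ne_zero _ S.g₀_ne) (S.ψ_ne B hB),
        ProjVar.prin_pow]
      have h4' : (N : ℚ) • C = (N : ℚ) • (S.C₀ + X.prin S.g₀) := congrArg _ S.C_eq
      rw [h4']
      have h4 := S.B_eq B hB
      have h5 : B - S.D₀ - X.prin (S.ψ B) = 0 := by
        rw [sub_sub, sub_eq_zero]
        exact h4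
      have h6 : (N : ℚ) • (S.C₀ + X.prin S.g₀) + B +
          -((N : ℚ) • X.prin S.g₀ + X.prin (S.ψ B)) =
          (N : ℚ) • S.C₀ + S.D₀ + (B - S.D₀ - X.prin (S.ψ B)) := by
        rw [smul_add]
        abel
      rw [h6, h5, add_zero]
    rw [h3] at h2
    have hbox : IsBox ((N : ℚ) • CF + DF) ((N : ℚ) • CY + DY) ((N : ℚ) • S.C₀ + S.D₀) :=
      (S.C₀_box.smul (N : ℚ)).add S.D₀_box
    have h7 := S.prod.qcartier_right hbox h2
    have h8 := pvl_qc_add_prin h7 (pvl_b_ne S hB i)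
    rwa [add_assoc] at h8
  · intro v hv a ha
    obtain ⟨w, hw, hwd⟩ := pvl_gauss S hv
    obtain ⟨B, hB, hBc⟩ := hlc.lc w hwd _ (hord v w a hw ha)
    obtain ⟨B', hB', h1⟩ := pvl_lc S hB hw
    refine ⟨B', hB', fun c hc => ?_⟩
    have h2 := hBc _ (h1 c hc)
    push_cast at h2
    linarith

theorem SideData.kltSys_right (S : SideData F Y X N 𝔅 C CF CY DF DY)
    (hlc : IsKltSys X ω C N 𝔅)
    (hord : ∀ (v : DVal k K) (w : DVal k E) (a : ℤ), IsGauss M w v → v.HasOrd ωY a →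
      w.HasOrd ω (a + w S.g₀)) : IsKltSys Y ωY CY N S.sys := by
  intro v hv a ha
  obtain ⟨w, hw, hwd⟩ := pvl_gauss S hv
  obtain ⟨B, hB, hBc⟩ := hlc w hwd _ (hord v w a hw ha)
  obtain ⟨B', hB', h1⟩ := pvl_lc S hB hw
  refine ⟨B', hB', fun c hc => ?_⟩
  have h2 := hBc _ (h1 c hc)
  push_cast at h2
  linarith

theorem SideData.le_right (S : SideData F Y X N 𝔅 C CF CY DF DY) {B' : Y.Div}
    (hB' : B' ∈ S.sys) : ∃ B ∈ 𝔅, ∀ (P : X.primeDivisors) (Q : Y.primeDivisors),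
      LiesOver P.1 Q.1 1 → B P ≤ B' Q := by
  obtain ⟨B, hB, i, rfl⟩ := hB'
  refine ⟨B, hB, fun P Q hPQ => ?_⟩
  obtain ⟨-, hG⟩ := S.prod.box_right P.2 hPQ
  obtain ⟨-, h1⟩ := pvl_min S hB hG
  have h2 : B P = DY Q + P.1 (S.ψ B) := by
    have h3 := congrArg (fun D : X.Div => D P) (S.B_eq B hB)
    simp only [Finsupp.add_apply, ProjVar.prin_apply] at h3
    rw [h3, S.D₀_box.gauss_right P Q hG]
  rw [h2, Finsupp.add_apply, ProjVar.prin_apply]
  have h4 : (P.1 (S.ψ B) : ℚ) ≤ Q.1 (S.b B i) := by exact_mod_cast h1 i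
  linarith

end Pool.Agent.Helper30.PV
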