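import Pool.Agent.Helper47.PQ.Charts

set_option autoImplicit false
set_option linter.unusedSectionVars false

/-!
# PV-E1: the polynomial ring `M[y₁, ..., y_n]` inside `E`

`y₁, ..., y_n ∈ K` algebraically independent over `k`; `M` and `K` linearly disjoint over `k` in `E`;
`R = prodRing E ⊤ k[y] = M[y₁, ..., y_n] ⊆ E`.

`ufd_polyRing`: `R` is a unique factorisation domain. PROOF. The `M`-algebra homomorphism
`MvPolynomial (Fin n) M → E`, `X_i ↦ y_i` (`MvPolynomial.aeval`) has image `R` (its range is the
subring generated by `M` and the `y_i`; `prodRing` is generated by the images of `M` and of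
`Algebra.adjoin k (Set.range y)`) and is injective: the monomials in the `y_i` (elements of `K`)
are linearly independent over `k`, hence over `M` in `E` (`linDisj_symm h : LinDisj k K M E`, for
finite families: a polynomial in the kernel gives a relation
`∑ algebraMap K E (y ^ u) * algebraMap M E (c_u) = 0` over its support). So `R ≃+* MvPolynomial
(Fin n) M`, which is a unique factorisation domain; `MulEquiv.uniqueFactorizationMonoid`.

`isFrac_polyRing`: `E` is the field of fractions of `R`. PROOF. By `isFrac_prodRing` with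
`A = ⊤` (`IsFrac ⊤` is trivial) and `B = k[y]`, which has the fraction field `K`
(`hgen`, `IntermediateField.mem_adjoin_iff_div`, as in `ProjVar.chart_isFrac`).
-/

namespace Pool.Agent.Helper30.PV

open Pool.Agent.Helper92.Weak Pool.Agent.Helper47.PQ

variable {k M K E : Type*} [Field k] [Field M] [Field K] [Field E]
  [Algebra k M] [Algebra k K] [Algebra k E] [Algebra M E] [Algebra K E]
  [IsScalarTower k M E] [IsScalarTower k K E]

/-- The evaluation map. -/
private noncomputable def prgEv (M E : Type*) {K : Type*} [Field M] [Field K] [Field E]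
    [Algebra M E] [Algebra K E] {n : ℕ} (y : Fin n → K) : MvPolynomial (Fin n) M →ₐ[M] E :=
  MvPolynomial.aeval fun i => algebraMap K E (y i)

private theorem prgEv_mem {n : ℕ} (y : Fin n → K) (p : MvPolynomial (Fin n) M) :
    prgEv M E y p ∈ prodRing E (⊤ : Subalgebra k M) (Algebra.adjoin k (Set.range y)) := by
  induction p using MvPolynomial.induction_on with
  | C a =>
    rw [prgEv, MvPolynomial.aeval_C]
    exact mapM_mem _ trivial
  | add p q hp hq =>
    rw [map_add]
    exact Subalgebra.add_mem _ hp hq
  | mul_X p i hp =>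
    rw [map_mul]
    refine Subalgebra.mul_mem _ hp ?_
    rw [prgEv, MvPolynomial.aeval_X]
    exact mapK_mem _ (Algebra.subset_adjoin ⟨i, rfl⟩)

private theorem prgEv_surj {n : ℕ} (y : Fin n → K) {s : E}
    (hs : s ∈ prodRing E (⊤ : Subalgebra k M) (Algebra.adjoin k (Set.range y))) :
    ∃ p : MvPolynomial (Fin n) M, prgEv M E y p = s := by
  obtain ⟨m, a, b, -, hb, rfl⟩ := mem_prodRing.1 hs
  have h1 : ∀ i, ∃ q : MvPolynomial (Fin n) M, prgEv M E y q = algebraMap K E (b i) := by
    intro i
    have h2 := hb i
    rw [Algebra.adjoin_range_eq_range_aeval] at h2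
    obtain ⟨q, hq⟩ := h2
    refine ⟨MvPolynomial.map (algebraMap k M) q, ?_⟩
    rw [prgEv, MvPolynomial.aeval_map_algebraMap, ← hq]
    exact MvPolynomial.aeval_algebraMap_apply E y q
  choose q hq using h1
  refine ⟨∑ i, MvPolynomial.C (a i) * q i, ?_⟩
  rw [map_sum]
  refine Finset.sum_congr rfl fun i _ => ?_
  rw [map_mul, hq i, prgEv, MvPolynomial.aeval_C]

private theorem prgEv_inj (h : LinDisj k M K E) {n : ℕ} {y : Fin n → K}
    (hy : AlgebraicIndependent k y) {p : MvPolynomial (Fin n) M} (hp : prgEv M E y p = 0) :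
    p = 0 := by
  classical
  have hli : LinearIndependent k fun u : Fin n →₀ ℕ => ∏ i, y i ^ u i := by
    have h1 := (MvPolynomial.basisMonomials (Fin n) k).linearIndependent.map'
      (MvPolynomial.aeval y : MvPolynomial (Fin n) k →ₐ[k] K).toLinearMap
      (LinearMap.ker_eq_bot.2 hy)
    have h2 : (⇑(MvPolynomial.aeval y : MvPolynomial (Fin n) k →ₐ[k] K).toLinearMap ∘
        ⇑(MvPolynomial.basisMonomials (Fin n) k)) = fun u : Fin n →₀ ℕ => ∏ i, y i ^ u i := by
      funext u
      simp only [Function.comp, MvPolynomial.coe_basisMonomials, AlgHom.toLinearMap_apply]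
      rw [MvPolynomial.aeval_monomial, map_one, one_mul]
      exact Finsupp.prod_fintype _ _ fun i => pow_zero _
    rwa [h2] at h1
  have hsum : ∑ u ∈ p.support, algebraMap K E (∏ i, y i ^ u i) * algebraMap M E (p.coeff u) =
      0 := by
    rw [← hp, prgEv, MvPolynomial.aeval_eq_eval₂Hom, MvPolynomial.coe_eval₂Hom,
      MvPolynomial.eval₂_eq']
    refine Finset.sum_congr rfl fun u _ => ?_
    rw [mul_comm, map_prod]
    simp only [map_pow]
  let e : Fin p.support.card ≃ p.support := p.support.equivFin.symm
  have h3 := linDisj_symm h p.support.card (fun j => ∏ i, y i ^ ((e j : Fin n →₀ ℕ) i))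
    (hli.comp (fun j => (e j : Fin n →₀ ℕ)) (Subtype.val_injective.comp e.injective))
    (fun j => p.coeff (e j)) (by
      rw [e.sum_comp (fun u : p.support =>
          algebraMap K E (∏ i, y i ^ ((u : Fin n →₀ ℕ) i)) * algebraMap M E (p.coeff u)),
        Finset.sum_coe_sort p.support (fun u =>
          algebraMap K E (∏ i, y i ^ u i) * algebraMap M E (p.coeff u))]
      exact hsum)
  ext u
  rw [MvPolynomial.coeff_zero]
  by_contra hu
  have hu' : u ∈ p.support := MvPolynomial.mem_support_iff.2 hu
  apply hu
  have h4 := h3 (e.symm ⟨u, hu'⟩)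
  rwa [e.apply_symm_apply] at h4

theorem ufd_polyRing (h : LinDisj k M K E) {n : ℕ} {y : Fin n → K}
    (hy : AlgebraicIndependent k y) :
    UniqueFactorizationMonoid
      (prodRing E (⊤ : Subalgebra k M) (Algebra.adjoin k (Set.range y))) := by
  let f : MvPolynomial (Fin n) M →+*
      prodRing E (⊤ : Subalgebra k M) (Algebra.adjoin k (Set.range y)) :=
    (prgEv M E y).toRingHom.codRestrict
      (prodRing E (⊤ : Subalgebra k M) (Algebra.adjoin k (Set.range y))) (prgEv_mem y)
  have hf : ∀ p, ((f p : prodRing E (⊤ : Subalgebra k M) (Algebra.adjoin k (Set.range y))) : E) =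
      prgEv M E y p := fun p => rfl
  have hbij : Function.Bijective f := by
    constructor
    · rw [injective_iff_map_eq_zero]
      intro p hp
      apply prgEv_inj h hy
      rw [← hf, hp]
      rfl
    · rintro ⟨s, hs⟩
      obtain ⟨p, hp⟩ := prgEv_surj y hs
      exact ⟨p, Subtype.ext ((hf p).trans hp)⟩
  exact (RingEquiv.ofBijective f hbij).toMulEquiv.uniqueFactorizationMonoid inferInstance

theorem isFrac_adjoin {n : ℕ} {y : Fin n → K}
    (hgen : IntermediateField.adjoin k (Set.range y) = ⊤) :
    IsFrac (Algebra.adjoin k (Set.range y)) := by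
  intro z
  have hz : z ∈ IntermediateField.adjoin k (Set.range y) := by
    rw [hgen]; trivial
  rw [IntermediateField.mem_adjoin_iff_div] at hz
  obtain ⟨a, ha, b, hb, h⟩ := hz
  by_cases hb0 : b = 0
  · refine ⟨0, Subalgebra.zero_mem _, 1, Subalgebra.one_mem _, one_ne_zero, ?_⟩
    rw [h, hb0]; simp
  · exact ⟨a, ha, b, hb, hb0, h⟩

theorem isFrac_polyRing (hfr : IsFrac (prodRing E (⊤ : Subalgebra k M) (⊤ : Subalgebra k K)))
    {n : ℕ} {y : Fin n → K} (hgen : IntermediateField.adjoin k (Set.range y) = ⊤) :
    IsFrac (prodRing E (⊤ : Subalgebra k M) (Algebra.adjoin k (Set.range y))) := by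
  refine isFrac_prodRing (fun z => ?_) (isFrac_adjoin hgen) hfr
  exact ⟨z, trivial, 1, trivial, one_ne_zero, (div_one z).symm⟩

end Pool.Agent.Helper30.PV
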