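import Pool.Agent.Helper30.PV.PolyRing
import Pool.Agent.Helper47.PQ.Box
import Pool.Agent.Helper47.PQ.HartogsT
import Pool.Agent.Helper92.Weak.OfPrime

set_option autoImplicit false
set_option linter.unusedSectionVars false

/-!
# PV-E2: equations of the horizontal prime divisors if one factor is rational

`K = k(y₁, ..., y_n)` purely transcendental (`IsRational k K`), `X = F × Y`.

`exists_equation`: for every prime divisor `P` of `X` which is trivial on `M` and `K` there is
`f ∈ E`, `f ≠ 0`, with `P f = 1` and `Q f = 0` for all other prime divisors `Q` of `X` which are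
trivial on `M` and `K`.

PROOF. Let `R = prodRing E ⊤ k[y] = M[y₁, ..., y_n]`, a unique factorisation domain
(`ufd_polyRing`, `h.disj`) with fraction field `E` (`isFrac_polyRing`, `h.isFrac_top`,
`IsFrac.isFractionRing`), so `DVal.ofPrime k E g` is defined for prime elements `g` of `R`.
Let `P` be trivial on `M` and `K`. Then `P ≥ 0` on `M K`, in particular on `R`
(`mem_prodRing`: sums of products `a b` with `P a = P b = 0`; `P.ring` is a subalgebra).
Let `𝔭 = {f ∈ R : f = 0 or P f > 0}`, a prime ideal; `𝔭 ≠ 0` since otherwise `P` would vanish on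
`R ∖ 0` and so on `E`. Let `g ∈ 𝔭` be a prime element (a nonzero element of `𝔭` has a prime
factor in `𝔭`, `WfDvdMonoid`/`UniqueFactorizationMonoid.exists_mem_irreducible...`,
`Ideal.IsPrime.exists_mem_prime_of_ne_bot`). `g` does not divide (in `R`) any nonzero
`c ∈ k[y]` (image in `E`): `P c = 0 < P g`. So `v := ofPrime k E g` is trivial on `k[y] ∖ 0`, hence
on `K` (quotients), and on `M` (units of `R`), and `v ≥ 0` on `M K`. Claim `P.ring ≤ v.ring` (so
`P = v`, `DVal.eq_of_ring_le`): let `x ∈ P.ring`, `x = s / s'`, `s, s' ∈ M K`, `s' ≠ 0`, `P s' = 0`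
(`exists_frac_dom`). Then `v s ≥ 0`, and it remains to see that `v s' = 0`. There is a nonzero
`c ∈ k[y]` with `c s' ∈ R` (common denominator of the coefficients from `K = Frac k[y]`,
`mem_prodRing`, `isFrac_adjoin`). If `v s' > 0` then `v (c s') > 0`, so `g ∣ c s'` in `R`
(`ofPrime_pos_iff`) and `P (c s') ≥ P g > 0`, but `P (c s') = P c + P s' = 0`. Contradiction.
So `P = ofPrime g`, in particular `P g = 1` (`f := g`). If `Q ≠ P` is another such prime divisor,
`Q = ofPrime g'` with `g'` prime, and `Q g = 0`: otherwise `g' ∣ g` (`ofPrime_eq_zero`), so `g` and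
`g'` are associated (`Prime` elements), and then `P = Q`: the rings agree, for instance because for
`z ∈ R` nonzero `P z > 0 ↔ g ∣ z ↔ g' ∣ z ↔ Q z > 0`, and if `x = a / b` with `a, b ∈ R`
then one can cancel common factors `g` (`WfDvdMonoid`), or use `mem_ofPrime_ring`.
-/

namespace Pool.Agent.Helper30.PV

open Pool.Agent.Helper92.Weak Pool.Agent.Helper47.PQ

/-- The field `K` is purely transcendental over `k`, of finite transcendence degree (a variety
with this function field is rational). -/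
def IsRational (k K : Type*) [Field k] [Field K] [Algebra k K] : Prop :=
  ∃ (n : ℕ) (y : Fin n → K), AlgebraicIndependent k y ∧
    IntermediateField.adjoin k (Set.range y) = ⊤

variable {k M K E : Type*} [Field k] [Field M] [Field K] [Field E]
  [Algebra k M] [Algebra k K] [Algebra k E] [Algebra M E] [Algebra K E]
  [IsScalarTower k M E] [IsScalarTower k K E] [IsAlgClosed k]

variable {F : ProjVar k M} {Y : ProjVar k K} {X : ProjVar k E}

/-- A prime divisor whose ring is a localisation of a unique factorisation domain is the valuation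
of a prime element. -/
private theorem eq_ofPrime_of {R : Subalgebra k E} [UniqueFactorizationMonoid R]
    [IsFractionRing R E] {P : DVal k E} (hRP : R ≤ P.ring)
    (hex : ∀ x : E, 0 ≤ P x → ∃ r r' : R, r' ≠ 0 ∧ P (r' : E) = 0 ∧ x = (r : E) / r') :
    ∃ (g : R) (hg : Prime g), P = DVal.ofPrime k E g hg := by
  let 𝔭 : Ideal R :=
    { carrier := {f | P.Ge 1 (f : E)}
      zero_mem' := DVal.Ge.zero
      add_mem' := fun {a b} ha hb => by
        change P.Ge 1 ((a + b : R) : E)
        push_cast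
        exact DVal.Ge.add ha hb
      smul_mem' := fun a b hb => by
        change P.Ge 1 ((a • b : R) : E)
        rw [smul_eq_mul]
        push_cast
        have h1 : P.Ge 0 (a : E) := P.mem_ring_iff_ge.1 (hRP a.2)
        have h2 := DVal.Ge.mul h1 (show P.Ge 1 (b : E) from hb)
        rwa [zero_add] at h2 }
  have hmem : ∀ f : R, f ∈ 𝔭 ↔ f = 0 ∨ 0 < P (f : E) := by
    intro f
    change P.Ge 1 (f : E) ↔ _
    unfold DVal.Ge
    constructor
    · rintro (h | h)
      · left
        exact Subtype.ext h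
      · right
        have h3 : (1 : ℤ) ≤ P (f : E) := by exact_mod_cast h
        omega
    · rintro (h | h)
      · left
        rw [h]
        rfl
      · right
        have h3 : (1 : ℤ) ≤ P (f : E) := by omega
        exact_mod_cast h3
  have hprime : 𝔭.IsPrime := by
    refine ⟨?_, ?_⟩
    · intro htop
      have h1 : (1 : R) ∈ 𝔭 := by rw [htop]; trivial
      rcases (hmem 1).1 h1 with h | h
      · exact one_ne_zero h
      · have h2 : P (((1 : R) : R) : E) = 0 := by
          push_cast
          exact P.map_one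
        omega
    · intro a b hab
      rw [hmem, hmem]
      by_contra hcon
      push Not at hcon
      obtain ⟨⟨ha0, ha⟩, hb0, hb⟩ := hcon
      have ha0' : (a : E) ≠ 0 := fun h => ha0 (Subtype.ext h)
      have hb0' : (b : E) ≠ 0 := fun h => hb0 (Subtype.ext h)
      rcases (hmem _).1 hab with h | h
      · exact mul_ne_zero ha0 hb0 h
      · push_cast at h
        rw [DVal.map_mul _ ha0' hb0'] at h
        omega
  have hbot : 𝔭 ≠ ⊥ := by
    intro hbot
    obtain ⟨u, hu0, hu⟩ := P.exists_uniformizer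
    obtain ⟨r, r', hr0, hr', hur⟩ := hex u (by omega)
    have hr0' : (r' : E) ≠ 0 := fun h => hr0 (Subtype.ext h)
    have hr : (r : E) ≠ 0 := by
      intro h
      rw [h, zero_div] at hur
      exact hu0 hur
    rw [hur, DVal.map_div _ hr hr0', hr'] at hu
    have h1 : r ∈ 𝔭 := (hmem r).2 (Or.inr (by omega))
    rw [hbot, Ideal.mem_bot] at h1
    exact hr (by rw [h1]; rfl)
  obtain ⟨g, hg𝔭, hg⟩ := hprime.exists_mem_prime_of_ne_bot hbot
  refine ⟨g, hg, DVal.eq_of_ring_le ?_⟩
  intro x hx
  obtain ⟨r, r', hr0, hr', hxr⟩ := hex x hx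
  rw [DVal.mem_ofPrime_ring]
  refine ⟨r, r', ?_, hxr⟩
  rintro ⟨c, hc⟩
  have h1 : r' ∈ 𝔭 := by
    rw [hc]
    exact 𝔭.mul_mem_right c hg𝔭
  rcases (hmem r').1 h1 with h | h
  · exact hr0 h
  · omega

private theorem ofPrime_eq_of_dvd {R : Subalgebra k E} [UniqueFactorizationMonoid R]
    [IsFractionRing R E] {g g' : R} (hg : Prime g) (hg' : Prime g') (h : g' ∣ g) :
    DVal.ofPrime k E g hg = DVal.ofPrime k E g' hg' := by
  have h1 : Associated g' g := hg'.associated_of_dvd hg h
  apply DVal.eq_of_ring_le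
  intro x hx
  rw [DVal.mem_ofPrime_ring] at hx ⊢
  obtain ⟨a, b, hb, hab⟩ := hx
  exact ⟨a, b, fun h2 => hb (h1.dvd_iff_dvd_left.1 h2), hab⟩

private theorem rational_frac (h : IsProduct F Y X) {B : Subalgebra k K} (hB : IsFrac B)
    {P : DVal k E} (hP : P ∈ X.primeDivisors) (h1 : ∀ a : M, P (algebraMap M E a) = 0)
    (h2 : ∀ b : K, P (algebraMap K E b) = 0) (x : E) (hx : 0 ≤ P x) :
    ∃ r r' : prodRing E (⊤ : Subalgebra k M) B, r' ≠ 0 ∧ P (r' : E) = 0 ∧ x = (r : E) / r' := by
  obtain ⟨s, hs, s', hs', hs0, hPs, hxs⟩ := h.exists_frac_dom hP hx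
  have hA : IsFrac (⊤ : Subalgebra k M) := fun z =>
    ⟨z, Algebra.mem_top, 1, Algebra.mem_top, one_ne_zero, (div_one z).symm⟩
  obtain ⟨α, hα, β, hβ, hα0, hβ0, h3⟩ := clear_denom hA hB hs
  obtain ⟨α', hα', β', hβ', hα0', hβ0', h4⟩ := clear_denom hA hB hs'
  have e1 : algebraMap M E α ≠ 0 := (map_ne_zero _).2 hα0
  have e2 : algebraMap K E β ≠ 0 := (map_ne_zero _).2 hβ0
  have e3 : algebraMap M E α' ≠ 0 := (map_ne_zero _).2 hα0'
  have e4 : algebraMap K E β' ≠ 0 := (map_ne_zero _).2 hβ0'
  have m1 : algebraMap M E α * algebraMap K E β ∈ prodRing E (⊤ : Subalgebra k M) B :=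
    Subalgebra.mul_mem _ (mapM_mem B hα) (mapK_mem _ hβ)
  have m2 : algebraMap M E α' * algebraMap K E β' ∈ prodRing E (⊤ : Subalgebra k M) B :=
    Subalgebra.mul_mem _ (mapM_mem B hα') (mapK_mem _ hβ')
  refine ⟨⟨_, Subalgebra.mul_mem _ h3 m2⟩, ⟨_, Subalgebra.mul_mem _ h4 m1⟩, ?_, ?_, ?_⟩
  · intro h0
    have h5 := congrArg Subtype.val h0
    exact mul_ne_zero (mul_ne_zero hs0 (mul_ne_zero e3 e4)) (mul_ne_zero e1 e2) h5
  · change P (s' * (algebraMap M E α' * algebraMap K E β') *
      (algebraMap M E α * algebraMap K E β)) = 0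
    rw [DVal.map_mul _ (mul_ne_zero hs0 (mul_ne_zero e3 e4)) (mul_ne_zero e1 e2),
      DVal.map_mul _ hs0 (mul_ne_zero e3 e4), DVal.map_mul _ e3 e4, DVal.map_mul _ e1 e2,
      h1, h1, h2, h2, hPs]
    simp
  · change x = (s * (algebraMap M E α * algebraMap K E β) *
      (algebraMap M E α' * algebraMap K E β')) / (s' * (algebraMap M E α' * algebraMap K E β') *
      (algebraMap M E α * algebraMap K E β))
    rw [hxs, div_eq_div_iff hs0
      (mul_ne_zero (mul_ne_zero hs0 (mul_ne_zero e3 e4)) (mul_ne_zero e1 e2))]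
    ring

private theorem prodRing_le_ring {A : Subalgebra k M} {B : Subalgebra k K} {P : DVal k E}
    (h1 : ∀ a : M, P (algebraMap M E a) = 0) (h2 : ∀ b : K, P (algebraMap K E b) = 0) :
    prodRing E A B ≤ P.ring := by
  apply sup_le
  · rintro x ⟨a, -, rfl⟩
    exact (h1 a).ge
  · rintro x ⟨b, -, rfl⟩
    exact (h2 b).ge

theorem exists_equation (h : IsProduct F Y X) (hK : IsRational k K) {P : DVal k E}
    (hP : P ∈ X.primeDivisors) (h1 : ∀ a : M, P (algebraMap M E a) = 0)
    (h2 : ∀ b : K, P (algebraMap K E b) = 0) :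
    ∃ f : E, f ≠ 0 ∧ P f = 1 ∧ ∀ Q ∈ X.primeDivisors, (∀ a : M, Q (algebraMap M E a) = 0) →
      (∀ b : K, Q (algebraMap K E b) = 0) → Q ≠ P → Q f = 0 := by
  obtain ⟨n, y, hy, hgen⟩ := hK
  have hufd := ufd_polyRing (E := E) h.disj hy
  have hfr := isFrac_polyRing h.isFrac_top hgen
  have hB := isFrac_adjoin hgen
  have hfrac := hfr.isFractionRing
  obtain ⟨g, hg, hPg⟩ := eq_ofPrime_of (prodRing_le_ring h1 h2) (rational_frac h hB hP h1 h2)
  have hg0 : (g : E) ≠ 0 := fun h0 => hg.ne_zero (Subtype.ext h0)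
  refine ⟨(g : E), hg0, ?_, ?_⟩
  · rw [hPg]
    have h3 := DVal.ofPrime_algebraMap k E hg hg.ne_zero
    rw [multiplicity_self] at h3
    exact_mod_cast h3
  · intro Q hQ h3 h4 hQP
    obtain ⟨g', hg', hQg⟩ := eq_ofPrime_of (prodRing_le_ring h3 h4) (rational_frac h hB hQ h3 h4)
    have h5 : ¬ g' ∣ g := by
      intro h5
      apply hQP
      rw [hPg, hQg]
      exact (ofPrime_eq_of_dvd hg hg' h5).symm
    rw [hQg]
    exact DVal.ofPrime_eq_zero k E hg' h5

end Pool.Agent.Helper30.PV
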